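import Mathlib

-- part MP_aa8c71_an.Approx
section

set_option autoImplicit false

open Complex Set Metric Filter Topology

namespace Pool.Agent.MP_aa8c71_an

/-- entire functions that are bounded on every upper half plane -/
def Ent (h : ℂ → ℂ) : Prop :=
  Differentiable ℂ h ∧ ∀ R : ℝ, ∃ M : ℝ, ∀ z : ℂ, -R ≤ z.im → ‖h z‖ ≤ M

theorem Ent.const (c : ℂ) : Ent (fun _ => c) :=
  ⟨differentiable_const c, fun _ => ⟨‖c‖, fun _ _ => le_rfl⟩⟩

theorem Ent.add {h k : ℂ → ℂ} (hh : Ent h) (hk : Ent k) : Ent (fun z => h z + k z) := by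
  refine ⟨hh.1.add hk.1, fun R => ?_⟩
  obtain ⟨M, hM⟩ := hh.2 R
  obtain ⟨M', hM'⟩ := hk.2 R
  exact ⟨M + M', fun z hz => (norm_add_le _ _).trans (add_le_add (hM z hz) (hM' z hz))⟩

theorem Ent.mul {h k : ℂ → ℂ} (hh : Ent h) (hk : Ent k) : Ent (fun z => h z * k z) := by
  refine ⟨hh.1.mul hk.1, fun R => ?_⟩
  obtain ⟨M, hM⟩ := hh.2 R
  obtain ⟨M', hM'⟩ := hk.2 R
  refine ⟨M * M', fun z hz => ?_⟩
  rw [norm_mul]
  exact mul_le_mul (hM z hz) (hM' z hz) (norm_nonneg _) ((norm_nonneg _).trans (hM z hz))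

theorem Ent.comp {h Φ : ℂ → ℂ} (hh : Ent h) (hΦ : Differentiable ℂ Φ) : Ent (fun z => Φ (h z)) := by
  refine ⟨hΦ.comp hh.1, fun R => ?_⟩
  obtain ⟨M, hM⟩ := hh.2 R
  obtain ⟨C, hC⟩ := (isCompact_closedBall (0 : ℂ) M).exists_bound_of_continuousOn
    hΦ.continuous.continuousOn
  exact ⟨C, fun z hz => hC _ (by simpa using hM z hz)⟩

theorem Ent.sub {h k : ℂ → ℂ} (hh : Ent h) (hk : Ent k) : Ent (fun z => h z - k z) := by
  have := hh.add (hk.comp (Φ := fun v => -v) (by fun_prop))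
  simpa only [sub_eq_add_neg] using this

theorem Ent.shift {h : ℂ → ℂ} (hh : Ent h) (c : ℂ) : Ent (fun z => h (z - c)) := by
  refine ⟨hh.1.comp (by fun_prop), fun R => ?_⟩
  obtain ⟨M, hM⟩ := hh.2 (R + c.im)
  exact ⟨M, fun z hz => hM _ (by rw [sub_im]; linarith)⟩

theorem Ent.expI {M : ℝ} (hM : 0 ≤ M) : Ent (fun z => exp (I * M * z)) := by
  refine ⟨by fun_prop, fun R => ⟨Real.exp (M * R), fun z hz => ?_⟩⟩
  rw [norm_exp]
  apply Real.exp_le_exp.2
  simp only [mul_re, I_re, ofReal_re, zero_mul, I_im, ofReal_im, mul_zero, sub_self, mul_im,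
    one_mul, zero_add, zero_sub]
  nlinarith

/-- uniform limits on `E` of such entire functions -/
def Appr (E : Set ℂ) (u : ℂ → ℂ) : Prop :=
  ∀ ε : ℝ, 0 < ε → ∃ h : ℂ → ℂ, Ent h ∧ ∀ z ∈ E, ‖h z - u z‖ ≤ ε

variable {E : Set ℂ}

theorem Ent.appr {h : ℂ → ℂ} (hh : Ent h) : Appr E h :=
  fun ε hε => ⟨h, hh, fun z _ => by simpa using hε.le⟩

theorem Appr.limit {u : ℂ → ℂ}
    (h : ∀ ε : ℝ, 0 < ε → ∃ v, Appr E v ∧ ∀ z ∈ E, ‖v z - u z‖ ≤ ε) : Appr E u := by
  intro ε hε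
  obtain ⟨v, hv, hvu⟩ := h (ε / 2) (half_pos hε)
  obtain ⟨k, hk, hkv⟩ := hv (ε / 2) (half_pos hε)
  refine ⟨k, hk, fun z hz => ?_⟩
  calc ‖k z - u z‖ = ‖(k z - v z) + (v z - u z)‖ := by ring_nf
    _ ≤ ε / 2 + ε / 2 := (norm_add_le _ _).trans (add_le_add (hkv z hz) (hvu z hz))
    _ = ε := by ring

theorem Appr.congr {u v : ℂ → ℂ} (h : Appr E u) (e : ∀ z ∈ E, v z = u z) : Appr E v := by
  intro ε hε
  obtain ⟨k, hk, hkv⟩ := h ε hε
  exact ⟨k, hk, fun z hz => by rw [e z hz]; exact hkv z hz⟩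

theorem Appr.add {u v : ℂ → ℂ} (hu : Appr E u) (hv : Appr E v) :
    Appr E (fun z => u z + v z) := by
  intro ε hε
  obtain ⟨h, hh, hhu⟩ := hu (ε / 2) (half_pos hε)
  obtain ⟨k, hk, hkv⟩ := hv (ε / 2) (half_pos hε)
  refine ⟨_, hh.add hk, fun z hz => ?_⟩
  calc ‖h z + k z - (u z + v z)‖ = ‖(h z - u z) + (k z - v z)‖ := by ring_nf
    _ ≤ ε / 2 + ε / 2 := (norm_add_le _ _).trans (add_le_add (hhu z hz) (hkv z hz))
    _ = ε := by ring

theorem Appr.bdd {u : ℂ → ℂ} {R : ℝ} (hE : ∀ z ∈ E, -R ≤ z.im) (hu : Appr E u) :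
    ∃ M : ℝ, ∀ z ∈ E, ‖u z‖ ≤ M := by
  obtain ⟨h, hh, hhu⟩ := hu 1 one_pos
  obtain ⟨M, hM⟩ := hh.2 R
  refine ⟨M + 1, fun z hz => ?_⟩
  calc ‖u z‖ = ‖h z - (h z - u z)‖ := by ring_nf
    _ ≤ M + 1 := (norm_sub_le _ _).trans (add_le_add (hM z (hE z hz)) (hhu z hz))

theorem Appr.comp {u Φ : ℂ → ℂ} {R : ℝ} (hE : ∀ z ∈ E, -R ≤ z.im) (hu : Appr E u)
    (hΦ : Differentiable ℂ Φ) : Appr E (fun z => Φ (u z)) := by
  obtain ⟨M, hM⟩ := hu.bdd hE
  intro ε hε
  have huc := (isCompact_closedBall (0 : ℂ) (M + 1)).uniformContinuousOn_of_continuous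
    hΦ.continuous.continuousOn
  rw [Metric.uniformContinuousOn_iff_le] at huc
  obtain ⟨δ, hδ, hδ'⟩ := huc ε hε
  obtain ⟨h, hh, hhu⟩ := hu (min δ 1) (lt_min hδ one_pos)
  refine ⟨_, hh.comp hΦ, fun z hz => ?_⟩
  have h1 := hhu z hz
  have h2 := hM z hz
  rw [← dist_eq_norm]
  apply hδ'
  · rw [mem_closedBall_zero_iff]
    calc ‖h z‖ = ‖(h z - u z) + u z‖ := by ring_nf
      _ ≤ ‖h z - u z‖ + ‖u z‖ := norm_add_le _ _
      _ ≤ M + 1 := by linarith [min_le_right δ 1]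
  · rw [mem_closedBall_zero_iff]; linarith
  · rw [dist_eq_norm]; exact h1.trans (min_le_left _ _)

theorem Appr.comp_disc {u Φ : ℂ → ℂ} {R : ℝ} (hE : ∀ z ∈ E, -R ≤ z.im) (hu : Appr E u)
    (hb : ∀ z ∈ E, ‖u z‖ ≤ 1 / 2) (hΦ : DifferentiableOn ℂ Φ (ball 0 1)) :
    Appr E (fun z => Φ (u z)) := by
  have h1 : DifferentiableOn ℂ Φ (closedBall 0 ((3 / 4 : NNReal) : ℝ)) :=
    hΦ.mono (closedBall_subset_ball (by norm_num))
  have h2 := h1.hasFPowerSeriesOnBall (by norm_num)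
  have h3 := h2.tendstoUniformlyOn (r' := (2 / 3 : NNReal)) (by
    rw [ENNReal.coe_lt_coe]; norm_num)
  rw [Metric.tendstoUniformlyOn_iff] at h3
  apply Appr.limit
  intro ε hε
  obtain ⟨n, hn⟩ := (h3 ε hε).exists
  refine ⟨fun z => (cauchyPowerSeries Φ 0 ((3 / 4 : NNReal) : ℝ)).partialSum n (u z),
    hu.comp hE ?_, fun z hz => ?_⟩
  · unfold FormalMultilinearSeries.partialSum
    simp only [FormalMultilinearSeries.apply_eq_pow_smul_coeff]
    fun_prop
  · have := hn (u z) (by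
      rw [mem_ball_zero_iff]
      exact (hb z hz).trans_lt (by norm_num))
    rw [dist_comm, dist_eq_norm, zero_add] at this
    exact this.le

theorem Appr.continuousOn {u : ℂ → ℂ} (hu : Appr E u) : ContinuousOn u E := by
  apply continuousOn_of_uniform_approx_of_continuousOn
  intro s hs
  obtain ⟨ε, hε, hs'⟩ := Metric.mem_uniformity_dist.1 hs
  obtain ⟨h, hh, hhu⟩ := hu (ε / 2) (half_pos hε)
  refine ⟨h, hh.1.continuous.continuousOn, fun y hy => hs' ?_⟩
  rw [dist_comm, dist_eq_norm]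
  exact (hhu y hy).trans_lt (half_lt_self hε)

/-- the Cauchy kernel with pole `b` can be approximated on `E` -/
def GoodPt (E : Set ℂ) (b : ℂ) : Prop := Appr E (fun z => (z - b)⁻¹)

theorem goodPt_of_im_lt {R : ℝ} (hE : ∀ z ∈ E, -R ≤ z.im) {b : ℂ} (hb : b.im < -R) :
    GoodPt E b := by
  intro ε hε
  set η := -R - b.im with hη
  have hη0 : 0 < η := by linarith
  obtain ⟨M, hM0, hM⟩ : ∃ M : ℝ, 0 ≤ M ∧ Real.exp (-(M * η)) ≤ ε * η := by
    have : Tendsto (fun M : ℝ => Real.exp (-(M * η))) atTop (𝓝 0) :=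
      Real.tendsto_exp_neg_atTop_nhds_zero.comp (tendsto_id.atTop_mul_const hη0)
    obtain ⟨M, hM⟩ := ((eventually_ge_atTop (0 : ℝ)).and
      (this.eventually (ge_mem_nhds (mul_pos hε hη0)))).exists
    exact ⟨M, hM⟩
  let g : ℂ → ℂ := fun z => 1 - exp (I * M * (z - b))
  have hg : Ent g := (Ent.const 1).sub ((Ent.expI hM0).shift b)
  have hgb : g b = 0 := by simp [g]
  have hd : ∀ z, z ≠ b → dslope g b z = (z - b)⁻¹ * g z := by
    intro z hz
    rw [dslope_of_ne _ hz, slope_def_field, hgb, sub_zero, div_eq_inv_mul]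
  have hdiff : Differentiable ℂ (dslope g b) := by
    rw [← differentiableOn_univ, differentiableOn_dslope univ_mem]
    exact hg.1.differentiableOn
  refine ⟨dslope g b, ⟨hdiff, fun R' => ?_⟩, fun z hz => ?_⟩
  · obtain ⟨C, hC⟩ := (isCompact_closedBall b 1).exists_bound_of_continuousOn
      hdiff.continuous.continuousOn
    obtain ⟨C', hC'⟩ := hg.2 R'
    refine ⟨max C C', fun z hz => ?_⟩
    by_cases h : z ∈ closedBall b 1
    · exact (hC z h).trans (le_max_left _ _)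
    · rw [mem_closedBall, dist_eq_norm, not_le] at h
      have hz' : z ≠ b := by
        rintro rfl
        simp at h; linarith
      rw [hd z hz', norm_mul, norm_inv]
      have : ‖z - b‖⁻¹ ≤ 1 := inv_le_one_of_one_le₀ h.le
      calc ‖z - b‖⁻¹ * ‖g z‖ ≤ 1 * ‖g z‖ := by gcongr
        _ ≤ max C C' := by rw [one_mul]; exact (hC' z hz).trans (le_max_right _ _)
  · have h1 : η ≤ (z - b).im := by rw [sub_im]; linarith [hE z hz]
    have h2 : η ≤ ‖z - b‖ := h1.trans ((le_abs_self _).trans (abs_im_le_norm _))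
    have hz' : z ≠ b := by
      rintro rfl
      simp at h2; linarith
    rw [hd z hz']
    have : (z - b)⁻¹ * g z - (z - b)⁻¹ = -((z - b)⁻¹ * exp (I * M * (z - b))) := by
      simp only [g]; ring
    rw [this, norm_neg, norm_mul, norm_inv, norm_exp]
    have h3 : (I * M * (z - b)).re ≤ -(M * η) := by
      simp only [mul_re, I_re, ofReal_re, zero_mul, I_im, ofReal_im, mul_zero, sub_self, mul_im,
        one_mul, zero_add, zero_sub]
      nlinarith
    calc ‖z - b‖⁻¹ * Real.exp (I * M * (z - b)).re ≤ η⁻¹ * (ε * η) := by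
          gcongr
          exact (Real.exp_le_exp.2 h3).trans hM
      _ = ε := by field_simp

/-- the pole can be moved from `x` to `y`, keeping track of a logarithm -/
def Link (E : Set ℂ) (x y : ℂ) : Prop :=
  GoodPt E x → GoodPt E y ∧ ∃ l : ℂ → ℂ, Appr E l ∧ ∀ z ∈ E, exp (l z) = (z - y) / (z - x)

theorem Link.trans {x y w : ℂ} (h1 : Link E x y) (h2 : Link E y w) : Link E x w := by
  intro hx
  obtain ⟨hy, l, hl, hl'⟩ := h1 hx
  obtain ⟨hw, m, hm, hm'⟩ := h2 hy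
  refine ⟨hw, _, hl.add hm, fun z hz => ?_⟩
  have : z - y ≠ 0 := by
    intro h
    have := hl' z hz
    rw [h, zero_div] at this
    exact exp_ne_zero _ this
  rw [exp_add, hl' z hz, hm' z hz]
  field_simp

theorem link_of_near {R : ℝ} (hE : ∀ z ∈ E, -R ≤ z.im) {x y : ℂ}
    (hx : ∀ z ∈ E, z ≠ x) (h : ∀ z ∈ E, 2 * ‖y - x‖ ≤ ‖z - x‖) : Link E x y := by
  intro hgx
  have hu : Appr E (fun z => (y - x) * (z - x)⁻¹) :=
    Appr.comp (Φ := fun v => (y - x) * v) hE hgx (by fun_prop)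
  have hb : ∀ z ∈ E, ‖(y - x) * (z - x)⁻¹‖ ≤ 1 / 2 := by
    intro z hz
    have h0 : 0 < ‖z - x‖ := norm_pos_iff.2 (sub_ne_zero.2 (hx z hz))
    rw [norm_mul, norm_inv, ← div_eq_mul_inv, div_le_iff₀ h0]
    linarith [h z hz]
  have hne : ∀ v ∈ ball (0 : ℂ) 1, 1 - v ∈ slitPlane := by
    intro v hv
    rw [mem_ball_zero_iff] at hv
    left
    have := (le_abs_self _).trans (abs_re_le_norm v)
    simp only [sub_re, one_re]; linarith
  have hone : ∀ z ∈ E, 1 - (y - x) * (z - x)⁻¹ = (z - y) / (z - x) := by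
    intro z hz
    have h0 : z - x ≠ 0 := sub_ne_zero.2 (hx z hz)
    field_simp; ring
  have hne' : ∀ z ∈ E, 1 - (y - x) * (z - x)⁻¹ ≠ 0 := fun z hz =>
    slitPlane_ne_zero (hne _ (mem_ball_zero_iff.2 ((hb z hz).trans_lt (by norm_num))))
  constructor
  · by_cases hxy : y = x
    · rw [hxy]; exact hgx
    have h1 : Appr E (fun z => (fun v => (y - x)⁻¹ * (v * (1 - v)⁻¹)) ((y - x) * (z - x)⁻¹)) := by
      refine Appr.comp_disc (Φ := fun v => (y - x)⁻¹ * (v * (1 - v)⁻¹)) hE hu hb ?_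
      intro v hv
      apply DifferentiableAt.differentiableWithinAt
      have := slitPlane_ne_zero (hne v hv)
      fun_prop (disch := assumption)
    refine h1.congr fun z hz => ?_
    have h0 : z - x ≠ 0 := sub_ne_zero.2 (hx z hz)
    have h2 : y - x ≠ 0 := sub_ne_zero.2 hxy
    have h3 : z - y ≠ 0 := by
      intro h4
      have := hne' z hz
      rw [hone z hz, h4, zero_div] at this
      exact this rfl
    simp only
    rw [hone z hz]
    field_simp
  · refine ⟨fun z => (fun v => log (1 - v)) ((y - x) * (z - x)⁻¹),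
      Appr.comp_disc (Φ := fun v => log (1 - v)) hE hu hb ?_, fun z hz => ?_⟩
    · intro v hv
      apply DifferentiableAt.differentiableWithinAt
      exact DifferentiableAt.clog (by fun_prop) (hne v hv)
    · simp only
      rw [exp_log (hne' z hz), hone z hz]

theorem link_of_preconnected {R : ℝ} (hE : ∀ z ∈ E, -R ≤ z.im) (hEc : IsClosed E)
    {S : Set ℂ} (hS : IsPreconnected S) (hSE : ∀ z ∈ S, z ∉ E) {x y : ℂ} (hx : x ∈ S)
    (hy : y ∈ S) : Link E x y := by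
  refine hS.induction₂' (Link E) ?_ (fun _ _ _ _ _ _ h1 h2 => h1.trans h2) hx hy
  intro x hx
  obtain ⟨d, hd, hd'⟩ := Metric.isOpen_iff.1 hEc.isOpen_compl x (hSE x hx)
  have hdz : ∀ z ∈ E, d ≤ ‖z - x‖ := by
    intro z hz
    by_contra h
    exact hd' (by rw [mem_ball, dist_eq_norm]; exact not_le.1 h) hz
  apply mem_nhdsWithin_of_mem_nhds
  filter_upwards [ball_mem_nhds x (show 0 < d / 3 by positivity)] with y hy
  rw [mem_ball, dist_eq_norm] at hy
  have htri : ∀ z ∈ E, 2 * d / 3 ≤ ‖z - y‖ := by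
    intro z hz
    have : ‖z - x‖ ≤ ‖z - y‖ + ‖y - x‖ := norm_sub_le_norm_sub_add_norm_sub _ _ _
    linarith [hdz z hz]
  constructor
  · refine link_of_near hE (fun z hz h => ?_) (fun z hz => by linarith [hdz z hz])
    have := hdz z hz
    rw [h, sub_self, norm_zero] at this
    linarith
  · refine link_of_near hE (fun z hz h => ?_) (fun z hz => ?_)
    · have := htri z hz
      rw [h, sub_self, norm_zero] at this
      linarith
    · rw [norm_sub_rev]; linarith [htri z hz]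

/-- two continuous logarithms on a preconnected set differ by a constant -/
theorem log_unique {S : Set ℂ} (hS : IsPreconnected S) {l m : ℂ → ℂ} (hl : ContinuousOn l S)
    (hm : ContinuousOn m S) (h : ∀ z ∈ S, exp (l z) = exp (m z)) {a b : ℂ} (ha : a ∈ S)
    (hb : b ∈ S) : l a - m a = l b - m b := by
  refine isCoveringMap_exp.constOn_of_comp hS (g := fun z => l z - m z) (hl.sub hm) ?_ ha hb
  intro z hz w hw
  apply Subtype.ext
  simp only [exp_sub, h z hz, h w hw, div_self (exp_ne_zero _)]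

end Pool.Agent.MP_aa8c71_an

end

-- part MP_aa8c71_an.Step
section

set_option autoImplicit false

open Complex Set Metric Filter Topology

namespace Pool.Agent.MP_aa8c71_an

/-- closed convex sets -/
def Poly (S : Set ℂ) : Prop := Convex ℝ S ∧ IsClosed S

theorem Poly.lin (p q c : ℝ) {P : ℂ → Prop} (h : ∀ w, P w ↔ p * w.re + q * w.im ≤ c) :
    Poly {w | P w} := by
  have e : {w | P w} = {w : ℂ | p * w.re + q * w.im ≤ c} := by
    ext w; exact h w
  rw [e]
  refine ⟨?_, isClosed_le (by fun_prop) continuous_const⟩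
  intro x hx y hy a b ha hb hab
  simp only [mem_setOf_eq, add_re, add_im, smul_re, smul_im, smul_eq_mul] at hx hy ⊢
  obtain rfl : b = 1 - a := by linarith
  nlinarith [mul_nonneg ha (sub_nonneg.2 hx), mul_nonneg hb (sub_nonneg.2 hy)]

theorem Poly.and {P Q : ℂ → Prop} (hP : Poly {w | P w}) (hQ : Poly {w | Q w}) :
    Poly {w | P w ∧ Q w} :=
  ⟨hP.1.inter hQ.1, hP.2.inter hQ.2⟩

theorem Poly.inter {S T : Set ℂ} (hP : Poly S) (hQ : Poly T) : Poly (S ∩ T) :=
  ⟨hP.1.inter hQ.1, hP.2.inter hQ.2⟩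

theorem Poly.conn {S : Set ℂ} (h : Poly S) : IsPreconnected S := h.1.isPreconnected

def Tri (r : ℝ) : Set ℂ := {w | w.im ≤ r ∧ w.re - w.im ≤ r ∧ -w.re - w.im ≤ r}
def Upp (ρ : ℝ) : Set ℂ := {w | ρ ≤ w.im}
def Rgt (ρ κ R : ℝ) : Set ℂ := {w | ρ ≤ w.re - w.im ∧ κ ≤ w.re ∧ -R ≤ w.im}
def Lft (ρ κ R : ℝ) : Set ℂ := {w | ρ ≤ -w.re - w.im ∧ w.re ≤ -κ ∧ -R ≤ w.im}
def Seg (a b : ℝ) : Set ℂ := {w | w.re ≤ 0 ∧ 0 ≤ w.re ∧ a ≤ w.im ∧ w.im ≤ b}
def Out (ρ κ R : ℝ) : Set ℂ := Upp ρ ∪ Lft ρ κ R ∪ Rgt ρ κ R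

theorem poly_Tri (r : ℝ) : Poly (Tri r) :=
  (Poly.lin 0 1 r fun w => by constructor <;> intro <;> linarith).and
    ((Poly.lin 1 (-1) r fun w => by constructor <;> intro <;> linarith).and
      (Poly.lin (-1) (-1) r fun w => by constructor <;> intro <;> linarith))

theorem poly_Upp (r : ℝ) : Poly (Upp r) :=
  Poly.lin 0 (-1) (-r) fun w => by constructor <;> intro <;> linarith

theorem poly_Rgt (ρ κ R : ℝ) : Poly (Rgt ρ κ R) :=
  (Poly.lin (-1) 1 (-ρ) fun w => by constructor <;> intro <;> linarith).and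
    ((Poly.lin (-1) 0 (-κ) fun w => by constructor <;> intro <;> linarith).and
      (Poly.lin 0 (-1) R fun w => by constructor <;> intro <;> linarith))

theorem poly_Lft (ρ κ R : ℝ) : Poly (Lft ρ κ R) :=
  (Poly.lin 1 1 (-ρ) fun w => by constructor <;> intro <;> linarith).and
    ((Poly.lin 1 0 (-κ) fun w => by constructor <;> intro <;> linarith).and
      (Poly.lin 0 (-1) R fun w => by constructor <;> intro <;> linarith))

theorem poly_Seg (a b : ℝ) : Poly (Seg a b) :=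
  (Poly.lin 1 0 0 fun w => by constructor <;> intro <;> linarith).and
    ((Poly.lin (-1) 0 0 fun w => by constructor <;> intro <;> linarith).and
      ((Poly.lin 0 (-1) (-a) fun w => by constructor <;> intro <;> linarith).and
        (Poly.lin 0 1 b fun w => by constructor <;> intro <;> linarith)))

theorem conn_Out {ρ κ R : ℝ} (hρ : 0 ≤ ρ) (hκ : 0 ≤ κ) (hR : 0 ≤ R) :
    IsPreconnected (Out ρ κ R) := by
  refine IsPreconnected.union (⟨2 * ρ + κ, ρ⟩ : ℂ) (Or.inl (le_refl ρ)) ?_ ?_ (poly_Rgt _ _ _).conn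
  · refine ⟨?_, ?_, ?_⟩ <;> simp only <;> linarith
  · refine IsPreconnected.union (⟨-(2 * ρ + κ), ρ⟩ : ℂ) (le_refl ρ) ?_ (poly_Upp _).conn
      (poly_Lft _ _ _).conn
    refine ⟨?_, ?_, ?_⟩ <;> simp only <;> linarith

/-- a logarithm of `(z - b) / (z - b')` that can be approximated on the whole configuration -/
theorem exists_log {r ρ κ R δ η : ℝ} (hr : 0 < r) (hrη : r < η) (hηρ : η < ρ) (hκ : 0 < κ)
    (hR : ρ ≤ R) (hδ : 0 < δ) (hδη : δ ≤ η) :
    ∃ l : ℂ → ℂ, Appr (Out ρ κ R ∪ Seg r ρ ∪ Tri r) l ∧ ∀ z ∈ Out ρ κ R ∪ Seg r ρ ∪ Tri r,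
      exp (l z) = (z - ⟨-δ, η⟩) / (z - ⟨δ, η⟩) := by
  set E := Out ρ κ R ∪ Seg r ρ ∪ Tri r with hEdef
  have hmem : ∀ z ∈ E, ρ ≤ z.im ∨ (ρ ≤ -z.re - z.im ∧ z.re ≤ -κ ∧ -R ≤ z.im) ∨
      (ρ ≤ z.re - z.im ∧ κ ≤ z.re ∧ -R ≤ z.im) ∨
      (z.re ≤ 0 ∧ 0 ≤ z.re ∧ r ≤ z.im ∧ z.im ≤ ρ) ∨
      (z.im ≤ r ∧ z.re - z.im ≤ r ∧ -z.re - z.im ≤ r) := by
    rintro z ((((h | h) | h) | h) | h)
    · exact Or.inl h
    · exact Or.inr (Or.inl h)
    · exact Or.inr (Or.inr (Or.inl h))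
    · exact Or.inr (Or.inr (Or.inr (Or.inl h)))
    · exact Or.inr (Or.inr (Or.inr (Or.inr h)))
  have hE : ∀ z ∈ E, -R ≤ z.im := by
    intro z hz
    rcases hmem z hz with h | ⟨_, _, _⟩ | ⟨_, _, _⟩ | ⟨_, _, _, _⟩ | ⟨_, _, _⟩ <;> linarith
  have hEc : IsClosed E :=
    (((((poly_Upp _).2.union (poly_Lft _ _ _).2).union (poly_Rgt _ _ _).2).union
      (poly_Seg _ _).2).union (poly_Tri _).2)
  have l0 : Link E ⟨0, -(R + 1)⟩ ⟨0, -η⟩ := by
    refine link_of_preconnected hE hEc (S := {w | w.re ≤ 0 ∧ 0 ≤ w.re ∧ w.im ≤ -η})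
      ((Poly.lin 1 0 0 fun w => by constructor <;> intro <;> linarith).and
        ((Poly.lin (-1) 0 0 fun w => by constructor <;> intro <;> linarith).and
          (Poly.lin 0 1 (-η) fun w => by constructor <;> intro <;> linarith))).conn ?_ ?_ ?_
    · rintro z ⟨_, _, _⟩ hz
      rcases hmem z hz with h | ⟨_, _, _⟩ | ⟨_, _, _⟩ | ⟨_, _, _, _⟩ | ⟨_, _, _⟩ <;> linarith
    · refine ⟨?_, ?_, ?_⟩ <;> simp only <;> linarith
    · refine ⟨?_, ?_, ?_⟩ <;> simp only <;> linarith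
  have l1 : Link E ⟨0, -η⟩ ⟨-(2 * η), η⟩ := by
    refine link_of_preconnected hE hEc
      (S := {w | -w.re - w.im ≤ η ∧ η ≤ -w.re - w.im ∧ w.re ≤ 0 ∧ w.im ≤ η})
      ((Poly.lin (-1) (-1) η fun w => by constructor <;> intro <;> linarith).and
        ((Poly.lin 1 1 (-η) fun w => by constructor <;> intro <;> linarith).and
          ((Poly.lin 1 0 0 fun w => by constructor <;> intro <;> linarith).and
            (Poly.lin 0 1 η fun w => by constructor <;> intro <;> linarith)))).conn ?_ ?_ ?_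
    · rintro z ⟨_, _, _, _⟩ hz
      rcases hmem z hz with h | ⟨_, _, _⟩ | ⟨_, _, _⟩ | ⟨_, _, _, _⟩ | ⟨_, _, _⟩ <;> linarith
    · refine ⟨?_, ?_, ?_, ?_⟩ <;> simp only <;> linarith
    · refine ⟨?_, ?_, ?_, ?_⟩ <;> simp only <;> linarith
  have l2 : Link E ⟨-(2 * η), η⟩ ⟨-δ, η⟩ := by
    refine link_of_preconnected hE hEc
      (S := {w | w.im ≤ η ∧ η ≤ w.im ∧ -(2 * η) ≤ w.re ∧ w.re ≤ -δ})
      ((Poly.lin 0 1 η fun w => by constructor <;> intro <;> linarith).and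
        ((Poly.lin 0 (-1) (-η) fun w => by constructor <;> intro <;> linarith).and
          ((Poly.lin (-1) 0 (2 * η) fun w => by constructor <;> intro <;> linarith).and
            (Poly.lin 1 0 (-δ) fun w => by constructor <;> intro <;> linarith)))).conn ?_ ?_ ?_
    · rintro z ⟨_, _, _, _⟩ hz
      rcases hmem z hz with h | ⟨_, _, _⟩ | ⟨_, _, _⟩ | ⟨_, _, _, _⟩ | ⟨_, _, _⟩ <;> linarith
    · refine ⟨?_, ?_, ?_, ?_⟩ <;> simp only <;> linarith
    · refine ⟨?_, ?_, ?_, ?_⟩ <;> simp only <;> linarith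
  have l3 : Link E ⟨0, -η⟩ ⟨2 * η, η⟩ := by
    refine link_of_preconnected hE hEc
      (S := {w | w.re - w.im ≤ η ∧ η ≤ w.re - w.im ∧ 0 ≤ w.re ∧ w.im ≤ η})
      ((Poly.lin 1 (-1) η fun w => by constructor <;> intro <;> linarith).and
        ((Poly.lin (-1) 1 (-η) fun w => by constructor <;> intro <;> linarith).and
          ((Poly.lin (-1) 0 0 fun w => by constructor <;> intro <;> linarith).and
            (Poly.lin 0 1 η fun w => by constructor <;> intro <;> linarith)))).conn ?_ ?_ ?_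
    · rintro z ⟨_, _, _, _⟩ hz
      rcases hmem z hz with h | ⟨_, _, _⟩ | ⟨_, _, _⟩ | ⟨_, _, _, _⟩ | ⟨_, _, _⟩ <;> linarith
    · refine ⟨?_, ?_, ?_, ?_⟩ <;> simp only <;> linarith
    · refine ⟨?_, ?_, ?_, ?_⟩ <;> simp only <;> linarith
  have l4 : Link E ⟨2 * η, η⟩ ⟨δ, η⟩ := by
    refine link_of_preconnected hE hEc
      (S := {w | w.im ≤ η ∧ η ≤ w.im ∧ w.re ≤ 2 * η ∧ δ ≤ w.re})
      ((Poly.lin 0 1 η fun w => by constructor <;> intro <;> linarith).and
        ((Poly.lin 0 (-1) (-η) fun w => by constructor <;> intro <;> linarith).and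
          ((Poly.lin 1 0 (2 * η) fun w => by constructor <;> intro <;> linarith).and
            (Poly.lin (-1) 0 (-δ) fun w => by constructor <;> intro <;> linarith)))).conn ?_ ?_ ?_
    · rintro z ⟨_, _, _, _⟩ hz
      rcases hmem z hz with h | ⟨_, _, _⟩ | ⟨_, _, _⟩ | ⟨_, _, _, _⟩ | ⟨_, _, _⟩ <;> linarith
    · refine ⟨?_, ?_, ?_, ?_⟩ <;> simp only <;> linarith
    · refine ⟨?_, ?_, ?_, ?_⟩ <;> simp only <;> linarith
  have g0 : GoodPt E ⟨0, -(R + 1)⟩ := goodPt_of_im_lt hE (by simp only; linarith)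
  have g1 := (l0 g0).1
  obtain ⟨-, l, hl, hl'⟩ := (l1.trans l2) g1
  obtain ⟨-, m, hm, hm'⟩ := (l3.trans l4) g1
  refine ⟨fun z => l z + (fun v => -v) (m z), hl.add (hm.comp hE (by fun_prop)), fun z hz => ?_⟩
  have h0 : z - ⟨0, -η⟩ ≠ 0 := by
    intro h
    have := hl' z hz
    rw [h, div_zero] at this
    exact exp_ne_zero _ this
  simp only
  rw [exp_add, exp_neg, hl' z hz, hm' z hz]
  field_simp

theorem two_pi_I_norm : 1 ≤ ‖(2 * Real.pi * I : ℂ)‖ := by
  have : ‖(2 * Real.pi * I : ℂ)‖ = 2 * Real.pi := by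
    simp [abs_of_pos Real.pi_pos]
  rw [this]; linarith [Real.two_le_pi]

/-- the step function: close to `0` outside, close to `1` on the triangle, close to the
real interval `[0,1]` on the connecting segment -/
theorem exists_step {r ρ κ R ε : ℝ} (hr : 0 < r) (hrρ : r < ρ) (hκ : 0 < κ) (hR : ρ ≤ R)
    (hε : 0 < ε) :
    ∃ χ : ℂ → ℂ, Ent χ ∧ (∀ w ∈ Out ρ κ R, ‖χ w‖ ≤ ε) ∧ (∀ w ∈ Tri r, ‖χ w - 1‖ ≤ ε) ∧
      ∀ w ∈ Seg r ρ, ∃ t : ℝ, 0 ≤ t ∧ t ≤ 1 ∧ ‖χ w - t‖ ≤ ε := by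
  set η := (r + ρ) / 2 with hη
  set g := (ρ - r) / 2 with hg
  have hg0 : 0 < g := by linarith
  obtain ⟨δ, hδ, hδη, hδ1, hδ2⟩ : ∃ δ : ℝ, 0 < δ ∧ δ ≤ η ∧ 2 * δ / g ≤ 1 / 2 ∧
      2 * δ / g ≤ ε / 4 := by
    refine ⟨min η (min (g / 4) (g * ε / 8)), lt_min (by linarith) (lt_min (by positivity)
      (by positivity)), min_le_left _ _, ?_, ?_⟩
    · rw [div_le_iff₀ hg0]
      have := (min_le_right η _).trans (min_le_left (g / 4) (g * ε / 8))
      linarith
    · rw [div_le_iff₀ hg0]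
      have := (min_le_right η _).trans (min_le_right (g / 4) (g * ε / 8))
      linarith
  obtain ⟨l, hl, hl'⟩ := exists_log (r := r) (ρ := ρ) (κ := κ) (R := R) (δ := δ) (η := η) hr
    (by linarith) (by linarith) hκ hR hδ hδη
  set E := Out ρ κ R ∪ Seg r ρ ∪ Tri r with hEdef
  have hE : ∀ z ∈ E, -R ≤ z.im := by
    rintro z ((((h | ⟨_, _, _⟩) | ⟨_, _, _⟩) | ⟨_, _, _, _⟩) | ⟨_, _, _⟩)
    · have : ρ ≤ z.im := h
      linarith
    all_goals linarith
  set b : ℂ := ⟨-δ, η⟩ with hb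
  set b' : ℂ := ⟨δ, η⟩ with hb'
  let u : ℂ → ℂ := fun z => (z - b) / (z - b')
  have hfar : ∀ z ∈ Out ρ κ R ∪ Tri r, g ≤ ‖z - b'‖ := by
    intro z hz
    have h1 := abs_re_le_norm (z - b')
    have h2 := abs_im_le_norm (z - b')
    simp only [sub_re, sub_im, hb'] at h1 h2
    have h3 := abs_le.1 h1
    have h4 := abs_le.1 h2
    rcases hz with ((h | ⟨_, _, _⟩) | ⟨_, _, _⟩) | ⟨_, _, _⟩
    · have : ρ ≤ z.im := h
      linarith
    all_goals linarith
  have hu1 : ∀ z ∈ Out ρ κ R ∪ Tri r, ‖u z - 1‖ ≤ 2 * δ / g := by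
    intro z hz
    have h1 := hfar z hz
    have h0 : z - b' ≠ 0 := norm_pos_iff.1 (hg0.trans_le h1)
    have : u z - 1 = (2 * δ : ℝ) / (z - b') := by
      simp only [u]
      field_simp
      apply Complex.ext <;> simp [hb, hb']; ring
    rw [this, norm_div, norm_real, Real.norm_of_nonneg (by linarith)]
    gcongr
  have hslit : ∀ z ∈ Out ρ κ R ∪ Tri r, u z ∈ slitPlane := by
    intro z hz
    left
    have := abs_le.1 ((abs_re_le_norm _).trans ((hu1 z hz).trans hδ1))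
    simp only [sub_re, one_re] at this
    linarith
  have hlog : ∀ z ∈ Out ρ κ R ∪ Tri r, ‖log (u z)‖ ≤ ε / 2 := by
    intro z hz
    have := norm_log_one_add_half_le_self ((hu1 z hz).trans hδ1)
    rw [add_sub_cancel] at this
    linarith [hu1 z hz]
  have hne : ∀ z ∈ E, z - b' ≠ 0 := by
    intro z hz h
    have := hl' z hz
    rw [h, div_zero] at this
    exact exp_ne_zero _ this
  have hucont : ContinuousOn u E :=
    ContinuousOn.div (by fun_prop) (by fun_prop) hne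
  have hOE : Out ρ κ R ⊆ E := fun z hz => Or.inl (Or.inl hz)
  have hSE : Seg r ρ ⊆ E := fun z hz => Or.inl (Or.inr hz)
  have hTE : Tri r ⊆ E := fun z hz => Or.inr hz
  -- values on the segment
  have hseg : ∀ z ∈ Seg r ρ, (-u z).re = (δ ^ 2 - (z.im - η) ^ 2) / (δ ^ 2 + (z.im - η) ^ 2) ∧
      (-u z).im = 2 * δ * (z.im - η) / (δ ^ 2 + (z.im - η) ^ 2) := by
    rintro z ⟨h1, h2, -, -⟩
    have h0 : z.re = 0 := le_antisymm h1 h2
    have hpos : 0 < δ ^ 2 + (z.im - η) ^ 2 := by positivity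
    simp only [u, neg_re, neg_im, div_re, div_im, normSq_apply, sub_re, sub_im, h0, hb, hb']
    have e : (0 - δ) * (0 - δ) + (z.im - η) * (z.im - η) = δ ^ 2 + (z.im - η) ^ 2 := by ring
    rw [e]
    constructor <;> field_simp <;> ring
  have hslit2 : ∀ z ∈ Seg r ρ, -u z ∈ slitPlane := by
    intro z hz
    obtain ⟨h1, h2⟩ := hseg z hz
    have hpos : 0 < δ ^ 2 + (z.im - η) ^ 2 := by positivity
    by_cases h : z.im - η = 0
    · left
      rw [h1, h]; apply div_pos <;> nlinarith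
    · right
      rw [h2]
      exact div_ne_zero (mul_ne_zero (by linarith) h) hpos.ne'
  have hnorm : ∀ z ∈ Seg r ρ, ‖-u z‖ = 1 := by
    intro z hz
    obtain ⟨h1, h2⟩ := hseg z hz
    have hpos : 0 < δ ^ 2 + (z.im - η) ^ 2 := by positivity
    have : ‖-u z‖ ^ 2 = 1 := by
      rw [Complex.sq_norm, normSq_apply, h1, h2]
      field_simp; ring
    have h3 := norm_nonneg (-u z)
    nlinarith
  let top : ℂ := ⟨0, ρ⟩
  let bot : ℂ := ⟨0, r⟩
  have htopO : top ∈ Out ρ κ R := Or.inl (Or.inl (le_refl ρ))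
  have htopS : top ∈ Seg r ρ := ⟨le_rfl, le_rfl, hrρ.le, le_rfl⟩
  have hbotS : bot ∈ Seg r ρ := ⟨le_rfl, le_rfl, le_rfl, hrρ.le⟩
  have hbotT : bot ∈ Tri r := by
    refine ⟨?_, ?_, ?_⟩ <;> simp only [bot] <;> linarith
  set c := l top - log (u top) with hc
  have hO : ∀ z ∈ Out ρ κ R, l z - log (u z) = c := by
    intro z hz
    refine log_unique (conn_Out (by linarith) hκ.le (by linarith)) (hl.continuousOn.mono hOE)
      ((hucont.mono hOE).clog fun z hz => hslit z (Or.inl hz)) ?_ hz htopO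
    intro z hz
    rw [hl' z (hOE hz), exp_log (slitPlane_ne_zero (hslit z (Or.inl hz)))]
  have hT : ∀ z ∈ Tri r, l z - log (u z) = l bot - log (u bot) := by
    intro z hz
    refine log_unique (poly_Tri r).conn (hl.continuousOn.mono hTE)
      ((hucont.mono hTE).clog fun z hz => hslit z (Or.inr hz)) ?_ hz hbotT
    intro z hz
    rw [hl' z (hTE hz), exp_log (slitPlane_ne_zero (hslit z (Or.inr hz)))]
  have hS : ∀ z ∈ Seg r ρ, l z - (log (-u z) - Real.pi * I) =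
      l top - (log (-u top) - Real.pi * I) := by
    intro z hz
    refine log_unique (m := fun z => log (-u z) - Real.pi * I) (poly_Seg r ρ).conn
      (hl.continuousOn.mono hSE)
      (((hucont.mono hSE).neg.clog hslit2).sub continuousOn_const) ?_ hz htopS
    intro z hz
    rw [hl' z (hSE hz), exp_sub, exp_log (slitPlane_ne_zero (hslit2 z hz)), exp_pi_mul_I]
    simp [u]
  have etop : log (u top) = log (-u top) - Real.pi * I := by
    have h1 : 0 < (-u top).im := by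
      rw [(hseg top htopS).2]
      apply div_pos
      · apply mul_pos (by linarith)
        simp only [top]; linarith
      · positivity
    have h2 := arg_neg_eq_arg_sub_pi_of_im_pos h1
    rw [neg_neg] at h2
    simp only [log, h2, norm_neg]
    push_cast; ring
  have ebot : log (u bot) = log (-u bot) + Real.pi * I := by
    have h1 : (-u bot).im < 0 := by
      rw [(hseg bot hbotS).2]
      apply div_neg_of_neg_of_pos
      · apply mul_neg_of_pos_of_neg (by linarith)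
        simp only [bot]; linarith
      · positivity
    have h2 := arg_neg_eq_arg_add_pi_of_im_neg h1
    rw [neg_neg] at h2
    simp only [log, h2, norm_neg]
    push_cast; ring
  have hI : (2 * Real.pi * I : ℂ) ≠ 0 := norm_pos_iff.1 (one_pos.trans_le two_pi_I_norm)
  have hsmall : ∀ v : ℂ, ‖v / (2 * Real.pi * I)‖ ≤ ‖v‖ := fun v => by
    rw [norm_div]
    exact div_le_self (norm_nonneg _) two_pi_I_norm
  have hχ : Appr E (fun z => (fun v => -(v - c) / (2 * Real.pi * I)) (l z)) :=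
    Appr.comp (Φ := fun v => -(v - c) / (2 * Real.pi * I)) hE hl (by fun_prop)
  obtain ⟨χ, hχe, hχa⟩ := hχ (ε / 2) (half_pos hε)
  simp only at hχa
  refine ⟨χ, hχe, fun w hw => ?_, fun w hw => ?_, fun w hw => ?_⟩
  · have h1 := hχa w (hOE hw)
    have h2 : -(l w - c) = -log (u w) := by rw [← hO w hw]; ring
    rw [h2] at h1
    have h3 := hsmall (-log (u w))
    rw [norm_neg] at h3
    calc ‖χ w‖ = ‖(χ w - -log (u w) / (2 * Real.pi * I)) + -log (u w) / (2 * Real.pi * I)‖ := by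
          ring_nf
      _ ≤ ε / 2 + ε / 2 := (norm_add_le _ _).trans
          (add_le_add h1 (h3.trans (hlog w (Or.inl hw))))
      _ = ε := by ring
  · have h1 := hχa w (hTE hw)
    have h2 : -(l w - c) = -log (u w) + 2 * Real.pi * I := by
      have a1 := hT w hw
      have a2 := hS bot hbotS
      rw [hc]
      linear_combination -a1 - a2 + ebot - etop
    rw [h2, add_div, div_self hI] at h1
    have h3 := hsmall (-log (u w))
    rw [norm_neg] at h3
    calc ‖χ w - 1‖ = ‖(χ w - (-log (u w) / (2 * Real.pi * I) + 1)) +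
          -log (u w) / (2 * Real.pi * I)‖ := by ring_nf
      _ ≤ ε / 2 + ε / 2 := (norm_add_le _ _).trans
          (add_le_add h1 (h3.trans (hlog w (Or.inr hw))))
      _ = ε := by ring
  · have h1 := hχa w (hSE hw)
    have hπ := Real.pi_pos
    refine ⟨1 / 2 - arg (-u w) / (2 * Real.pi), ?_, ?_, ?_⟩
    · have := arg_le_pi (-u w)
      rw [sub_nonneg, div_le_iff₀ (by positivity)]; linarith
    · have := neg_pi_lt_arg (-u w)
      have h : -(1 / 2) ≤ arg (-u w) / (2 * Real.pi) := by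
        rw [le_div_iff₀ (by positivity)]; linarith
      linarith
    · have h2 : -(l w - c) / (2 * Real.pi * I) =
          ((1 / 2 - arg (-u w) / (2 * Real.pi) : ℝ) : ℂ) := by
        have a2 := hS w hw
        have a3 : log (-u w) = arg (-u w) * I := by
          simp only [log, hnorm w hw, Real.log_one]; simp
        have a4 : -(l w - c) = Real.pi * I - arg (-u w) * I := by
          rw [hc]
          linear_combination -a2 - etop - a3
        have hπ' : (Real.pi : ℂ) ≠ 0 := ofReal_ne_zero.2 hπ.ne'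
        rw [a4]
        push_cast
        field_simp
      rw [h2] at h1
      linarith

/-- a bounded substitute for the identity -/
theorem exists_near_id {K ε : ℝ} (hK : 0 < K) (hε : 0 < ε) :
    ∃ τ : ℂ → ℂ, Ent τ ∧ ∀ w : ℂ, ‖w‖ ≤ K → ‖τ w - w‖ ≤ ε := by
  set a := min (1 / K) (ε / K ^ 2) with ha
  have ha0 : 0 < a := lt_min (by positivity) (by positivity)
  have ha1 : a * K ≤ 1 := by
    have := min_le_left (1 / K) (ε / K ^ 2)
    rwa [← ha, le_div_iff₀ hK] at this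
  have ha2 : a * K ^ 2 ≤ ε := by
    have := min_le_right (1 / K) (ε / K ^ 2)
    rwa [← ha, le_div_iff₀ (by positivity)] at this
  have hne : (I * a : ℂ) ≠ 0 := mul_ne_zero I_ne_zero (ofReal_ne_zero.2 ha0.ne')
  have hn : ‖(I * a : ℂ)‖ = a := by simp [abs_of_pos ha0]
  refine ⟨fun w => (fun v => (v - 1) / (I * a)) (exp (I * a * w)),
    (Ent.expI ha0.le).comp (Φ := fun v => (v - 1) / (I * a)) (by fun_prop), fun w hw => ?_⟩
  have h1 : ‖I * a * w‖ ≤ a * K := by rw [norm_mul, hn]; gcongr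
  have h2 := norm_exp_sub_one_sub_id_le (h1.trans ha1)
  have h3 : (exp (I * a * w) - 1) / (I * a) - w = (exp (I * a * w) - 1 - I * a * w) / (I * a) := by
    rw [eq_div_iff hne, sub_mul, div_mul_cancel₀ _ hne]; ring
  simp only
  rw [h3, norm_div, hn, div_le_iff₀ ha0]
  calc _ ≤ ‖I * a * w‖ ^ 2 := h2
    _ ≤ (a * K) ^ 2 := by gcongr
    _ = a * K ^ 2 * a := by ring
    _ ≤ ε * a := by gcongr

/-- one step of the construction -/
theorem exists_correction {F : ℂ → ℂ} (hF : Ent F) (c c' : ℂ) {r ρ κ R ε : ℝ} (hr : 0 < r)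
    (hrρ : r < ρ) (hκ : 0 < κ) (hR : ρ ≤ R) (hε : 0 < ε) :
    ∃ h : ℂ → ℂ, Ent h ∧ (∀ z, z - c ∈ Out ρ κ R → ‖h z‖ ≤ ε) ∧
      (∀ z, z - c ∈ Tri r → ‖F z + h z - (z - c + c')‖ ≤ ε) ∧
      ∀ z, z - c ∈ Seg r ρ → ∃ t : ℝ, 0 ≤ t ∧ t ≤ 1 ∧
        ‖F z + h z - ((1 - t) * F z + t * (z - c + c'))‖ ≤ ε := by
  obtain ⟨τ, hτ, hτ'⟩ := exists_near_id (K := 3 * ρ) (ε := ε / 2) (by linarith) (half_pos hε)
  let G : ℂ → ℂ := fun z => τ (z - c) + c' - F z
  have hG : Ent G := ((hτ.shift c).add (Ent.const c')).sub hF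
  obtain ⟨M, hM⟩ := hG.2 (R - c.im)
  set M' := max M 1 with hM'
  have hM0 : 0 < M' := one_pos.trans_le (le_max_right _ _)
  have hGb : ∀ z : ℂ, -R ≤ (z - c).im → ‖G z‖ ≤ M' := fun z hz =>
    (hM z (by rw [sub_im] at hz; linarith)).trans (le_max_left _ _)
  obtain ⟨χ, hχ, h1, h2, h3⟩ := exists_step (ε := ε / 2 / M') hr hrρ hκ hR (by positivity)
  have key : ∀ (z : ℂ) (v : ℂ), -R ≤ (z - c).im → ‖v‖ ≤ ε / 2 / M' → ‖v * G z‖ ≤ ε / 2 := by
    intro z v hz hv
    rw [norm_mul]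
    calc ‖v‖ * ‖G z‖ ≤ ε / 2 / M' * M' := by gcongr; exact hGb z hz
      _ = ε / 2 := by field_simp
  refine ⟨fun z => χ (z - c) * G z, (hχ.shift c).mul hG, fun z hz => ?_, fun z hz => ?_,
    fun z hz => ?_⟩
  · refine (key z _ ?_ (h1 _ hz)).trans (by linarith)
    rcases hz with (h | ⟨_, _, _⟩) | ⟨_, _, _⟩
    · have : ρ ≤ (z - c).im := h
      linarith
    all_goals linarith
  · have a1 := key z _ (by obtain ⟨_, _, _⟩ := hz; linarith) (h2 _ hz)
    have a2 := hτ' (z - c) (by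
      obtain ⟨_, _, _⟩ := hz
      refine (norm_le_abs_re_add_abs_im _).trans ?_
      have : |(z - c).re| ≤ 2 * ρ := abs_le.2 ⟨by linarith, by linarith⟩
      have : |(z - c).im| ≤ ρ := abs_le.2 ⟨by linarith, by linarith⟩
      linarith)
    calc ‖F z + χ (z - c) * G z - (z - c + c')‖
        = ‖(χ (z - c) - 1) * G z + (τ (z - c) - (z - c))‖ := by simp only [G]; ring_nf
      _ ≤ ε / 2 + ε / 2 := (norm_add_le _ _).trans (add_le_add a1 a2)
      _ = ε := by ring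
  · obtain ⟨t, ht0, ht1, ht⟩ := h3 _ hz
    refine ⟨t, ht0, ht1, ?_⟩
    have a1 := key z _ (by obtain ⟨_, _, _, _⟩ := hz; linarith) ht
    have a2 := hτ' (z - c) (by
      obtain ⟨_, _, _, _⟩ := hz
      refine (norm_le_abs_re_add_abs_im _).trans ?_
      have : |(z - c).re| ≤ 2 * ρ := abs_le.2 ⟨by linarith, by linarith⟩
      have : |(z - c).im| ≤ ρ := abs_le.2 ⟨by linarith, by linarith⟩
      linarith)
    have a3 : ‖(t : ℂ) * (τ (z - c) - (z - c))‖ ≤ ε / 2 := by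
      rw [norm_mul, norm_real, Real.norm_of_nonneg ht0]
      calc t * ‖τ (z - c) - (z - c)‖ ≤ 1 * (ε / 2) := by gcongr
        _ = ε / 2 := one_mul _
    calc ‖F z + χ (z - c) * G z - ((1 - t) * F z + t * (z - c + c'))‖
        = ‖(χ (z - c) - t) * G z + t * (τ (z - c) - (z - c))‖ := by simp only [G]; ring_nf
      _ ≤ ε / 2 + ε / 2 := (norm_add_le _ _).trans (add_le_add a1 a3)
      _ = ε := by ring

end Pool.Agent.MP_aa8c71_an

end

-- part MP_aa8c71_an.Construct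
section

set_option autoImplicit false

open Complex Set Metric Filter Topology

namespace Pool.Agent.MP_aa8c71_an

noncomputable def u (n : ℕ) : ℝ := (1 / 4 : ℝ) ^ n / 16

theorem u_pos (n : ℕ) : 0 < u n := by unfold u; positivity

theorem u_succ (n : ℕ) : u (n + 1) = u n / 4 := by unfold u; rw [pow_succ]; ring

theorem u_le (n : ℕ) : u n ≤ 1 / 16 := by
  unfold u
  have : (1 / 4 : ℝ) ^ n ≤ 1 := pow_le_one₀ (by norm_num) (by norm_num)
  linarith

/-- centres of the triangles -/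
noncomputable def ctr (n : ℕ) : ℂ := ⟨10 * n, -(1 + 6 * u n)⟩

/-- the attracting region is around this point -/
def pt : ℂ := ⟨0, 10⟩

theorem hasSum_u (m : ℕ) : HasSum (fun i => u (i + m) / 8) (u m / 6) := by
  have h := (hasSum_geometric_of_lt_one (r := (1 / 4 : ℝ)) (by norm_num) (by norm_num)).mul_left
    (u m / 8)
  have e1 : (fun i => u (i + m) / 8) = fun i => u m / 8 * (1 / 4 : ℝ) ^ i := by
    funext i; unfold u; rw [pow_add]; ring
  have e2 : u m / 6 = u m / 8 * (1 - 1 / 4)⁻¹ := by ring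
  rw [e1, e2]; exact h

theorem out_of_upper {z : ℂ} (hz : 0 ≤ z.im) (n : ℕ) (κ R : ℝ) :
    z - ctr n ∈ Out (1 + 6 * u n) κ R := by
  left; left
  show 1 + 6 * u n ≤ (z - ctr n).im
  simp only [ctr, sub_im]; linarith

theorem out_of_far {z : ℂ} {m n : ℕ} (hz : z - ctr m ∈ Tri 2) (hmn : n ≠ m) :
    z - ctr n ∈ Out (1 + 6 * u n) (u n) (n + 10) := by
  obtain ⟨h1, h2, h3⟩ := hz
  simp only [ctr, sub_re, sub_im] at h1 h2 h3
  have a1 := u_pos m
  have a2 := u_pos n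
  have a3 := u_le m
  have a4 := u_le n
  have a5 : (0 : ℝ) ≤ n := Nat.cast_nonneg n
  rcases lt_or_gt_of_ne hmn with h | h
  · have : (n : ℝ) + 1 ≤ m := by exact_mod_cast h
    right
    refine ⟨?_, ?_, ?_⟩ <;> simp only [ctr, sub_re, sub_im] <;> linarith
  · have : (m : ℝ) + 1 ≤ n := by exact_mod_cast h
    left; right
    refine ⟨?_, ?_, ?_⟩ <;> simp only [ctr, sub_re, sub_im] <;> linarith

theorem out_of_norm {z : ℂ} {n : ℕ} (hz : ‖z‖ + 1 ≤ n) :
    z - ctr n ∈ Out (1 + 6 * u n) (u n) (n + 10) := by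
  have h1 := abs_le.1 (abs_re_le_norm z)
  have h2 := abs_le.1 (abs_im_le_norm z)
  have a2 := u_pos n
  have a4 := u_le n
  have a5 := norm_nonneg z
  left; right
  refine ⟨?_, ?_, ?_⟩ <;> simp only [ctr, sub_re, sub_im] <;> linarith

theorem exists_seq : ∃ h : ℕ → ℂ → ℂ, (∀ n, Differentiable ℂ (h n)) ∧
    (∀ n z, z - ctr n ∈ Out (1 + 6 * u n) (u n) (n + 10) → ‖h n z‖ ≤ u n / 8) ∧
    (∀ n z, z - ctr n ∈ Tri (1 + 5 * u n) →
      ‖pt + ∑ k ∈ Finset.range (n + 1), h k z - (z - ctr n + ctr (n + 1))‖ ≤ u n / 8) ∧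
    (∀ n z, z - ctr n ∈ Seg (1 + 5 * u n) (1 + 6 * u n) → ∃ t : ℝ, 0 ≤ t ∧ t ≤ 1 ∧
      ‖pt + ∑ k ∈ Finset.range (n + 1), h k z - ((1 - t) * (pt + ∑ k ∈ Finset.range n, h k z) +
        t * (z - ctr n + ctr (n + 1)))‖ ≤ u n / 8) := by
  have step : ∀ (n : ℕ) (F : {F : ℂ → ℂ // Ent F}), ∃ h : ℂ → ℂ, Ent h ∧
      (∀ z, z - ctr n ∈ Out (1 + 6 * u n) (u n) (n + 10) → ‖h z‖ ≤ u n / 8) ∧
      (∀ z, z - ctr n ∈ Tri (1 + 5 * u n) → ‖F.1 z + h z - (z - ctr n + ctr (n + 1))‖ ≤ u n / 8) ∧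
      ∀ z, z - ctr n ∈ Seg (1 + 5 * u n) (1 + 6 * u n) → ∃ t : ℝ, 0 ≤ t ∧ t ≤ 1 ∧
        ‖F.1 z + h z - ((1 - t) * F.1 z + t * (z - ctr n + ctr (n + 1)))‖ ≤ u n / 8 := by
    intro n F
    have a1 := u_pos n
    have a2 := u_le n
    have a5 : (0 : ℝ) ≤ n := Nat.cast_nonneg n
    exact exists_correction F.2 _ _ (by linarith) (by linarith) a1 (by linarith) (by linarith)
  choose H hH using step
  let Fs : ℕ → {F : ℂ → ℂ // Ent F} := fun n =>
    Nat.rec ⟨fun _ => pt, Ent.const pt⟩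
      (fun k F => ⟨fun z => F.1 z + H k F z, F.2.add (hH k F).1⟩) n
  have hFs : ∀ n z, (Fs n).1 z = pt + ∑ k ∈ Finset.range n, H k (Fs k) z := by
    intro n z
    induction n with
    | zero => simp [Fs]
    | succ n ih =>
      rw [Finset.sum_range_succ, ← add_assoc, ← ih]
  refine ⟨fun n => H n (Fs n), fun n => (hH n _).1.1, fun n => (hH n _).2.1, fun n z hz => ?_,
    fun n z hz => ?_⟩
  · have := (hH n (Fs n)).2.2.1 z hz
    rwa [hFs, add_assoc, ← Finset.sum_range_succ (fun k => H k (Fs k) z)] at this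
  · obtain ⟨t, h0, h1, ht⟩ := (hH n (Fs n)).2.2.2 z hz
    refine ⟨t, h0, h1, ?_⟩
    rwa [hFs, add_assoc, ← Finset.sum_range_succ (fun k => H k (Fs k) z)] at ht

theorem exists_f : ∃ f : ℂ → ℂ, Differentiable ℂ f ∧
    (∀ z, 0 ≤ z.im → ‖f z - pt‖ < 1) ∧
    (∀ m z, z - ctr m ∈ Tri 2 → z - ctr m ∈ Out (1 + 6 * u m) (u m) 10 → ‖f z - pt‖ < 1) ∧
    (∀ m z, z - ctr m ∈ Tri (1 + 5 * u m) → ‖f z - (z - ctr m + ctr (m + 1))‖ ≤ u m / 4) ∧
    (∀ m z, z - ctr m ∈ Seg (1 + 5 * u m) (1 + 6 * u m) → 0 ≤ (f z).im) := by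
  obtain ⟨h, hd, h1, h2, h3⟩ := exists_seq
  have hsum : ∀ z, Summable (fun k => h k z) := by
    intro z
    refine Summable.of_norm_bounded_eventually_nat (g := fun k => u k / 8)
      (by simpa using (hasSum_u 0).summable) ?_
    filter_upwards [eventually_ge_atTop ⌈‖z‖ + 1⌉₊] with n hn
    exact h1 n z (out_of_norm (Nat.ceil_le.1 hn))
  let f : ℂ → ℂ := fun z => pt + ∑' k, h k z
  have hsplit : ∀ m z, f z = pt + ∑ k ∈ Finset.range m, h k z + ∑' k, h (k + m) z := by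
    intro m z
    simp only [f]
    rw [add_assoc, (hsum z).sum_add_tsum_nat_add m]
  have htail : ∀ m z, (∀ k, m ≤ k → z - ctr k ∈ Out (1 + 6 * u k) (u k) (k + 10)) →
      ‖f z - (pt + ∑ k ∈ Finset.range m, h k z)‖ ≤ u m / 6 := by
    intro m z hz
    rw [hsplit m z, add_sub_cancel_left]
    exact tsum_of_norm_bounded (hasSum_u m) fun i => h1 _ z (hz _ (Nat.le_add_left _ _))
  have hall : ∀ z, (∀ k, z - ctr k ∈ Out (1 + 6 * u k) (u k) (k + 10)) → ‖f z - pt‖ < 1 := by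
    intro z hz
    have := htail 0 z fun k _ => hz k
    simp only [Finset.range_zero, Finset.sum_empty, add_zero] at this
    linarith [u_le 0]
  have hT2 : ∀ m z, z - ctr m ∈ Tri (1 + 5 * u m) → z - ctr m ∈ Tri 2 := by
    rintro m z ⟨a, b, c⟩
    have := u_le m
    exact ⟨by linarith, by linarith, by linarith⟩
  refine ⟨f, ?_, fun z hz => hall z fun k => out_of_upper hz k _ _, fun m z hz hz' => ?_,
    fun m z hz => ?_, fun m z hz => ?_⟩
  · intro z
    set m := ⌈‖z‖ + 2⌉₊ with hm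
    have hm' : ‖z‖ + 2 ≤ m := Nat.le_ceil _
    have e : f = fun w => pt + ∑ k ∈ Finset.range m, h k w + ∑' k, h (k + m) w :=
      funext (hsplit m)
    rw [e]
    refine DifferentiableAt.add (DifferentiableAt.add (differentiableAt_const _) ?_) ?_
    · exact (Differentiable.fun_sum fun k _ => hd k) z
    · have := differentiableOn_tsum_of_summable_norm (F := fun k w => h (k + m) w)
        (U := ball z 1) (hasSum_u m).summable (fun i => (hd _).differentiableOn) isOpen_ball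
        (fun i w hw => h1 _ w (out_of_norm (by
          rw [mem_ball, dist_eq_norm] at hw
          have : ‖w‖ ≤ ‖w - z‖ + ‖z‖ := by simpa using norm_add_le (w - z) z
          have : (0 : ℝ) ≤ i := Nat.cast_nonneg i
          push_cast; linarith)))
      exact this.differentiableAt (ball_mem_nhds z one_pos)
  · refine hall z fun k => ?_
    by_cases hk : k = m
    · subst hk
      have a5 : (0 : ℝ) ≤ k := Nat.cast_nonneg k
      rcases hz' with (a | ⟨a, b, c⟩) | ⟨a, b, c⟩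
      · exact Or.inl (Or.inl a)
      · exact Or.inl (Or.inr ⟨a, b, by linarith⟩)
      · exact Or.inr ⟨a, b, by linarith⟩
    · exact out_of_far hz hk
  · have a1 := htail (m + 1) z fun k hk => out_of_far (hT2 m z hz) (by omega)
    have a2 := h2 m z hz
    rw [u_succ] at a1
    calc ‖f z - (z - ctr m + ctr (m + 1))‖ =
        ‖(f z - (pt + ∑ k ∈ Finset.range (m + 1), h k z)) +
          (pt + ∑ k ∈ Finset.range (m + 1), h k z - (z - ctr m + ctr (m + 1)))‖ := by ring_nf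
      _ ≤ u m / 4 / 6 + u m / 8 := (norm_add_le _ _).trans (add_le_add a1 a2)
      _ ≤ u m / 4 := by linarith [u_pos m]
  · have a0 := u_pos m
    have a0' := u_le m
    have hz2 : z - ctr m ∈ Tri 2 := by
      obtain ⟨a, b, c, d⟩ := hz
      exact ⟨by linarith, by linarith, by linarith⟩
    have a1 := htail (m + 1) z fun k hk => out_of_far hz2 (by omega)
    rw [u_succ] at a1
    obtain ⟨t, ht0, ht1, a2⟩ := h3 m z hz
    have a3 : ‖∑ k ∈ Finset.range m, h k z‖ ≤ 1 := by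
      calc ‖∑ k ∈ Finset.range m, h k z‖ ≤ ∑ k ∈ Finset.range m, u (k + 0) / 8 :=
            norm_sum_le_of_le _ fun k hk =>
              h1 k z (out_of_far hz2 (Finset.mem_range.1 hk).ne)
        _ ≤ u 0 / 6 := sum_le_hasSum _ (fun k _ => by have := u_pos (k + 0); positivity)
            (hasSum_u 0)
        _ ≤ 1 := by linarith [u_le 0]
    have a4 : 9 ≤ (pt + ∑ k ∈ Finset.range m, h k z).im := by
      have := abs_le.1 ((abs_im_le_norm _).trans a3)
      rw [add_im]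
      simp only [pt]; linarith
    have a5 : 3 * u m ≤ (z - ctr m + ctr (m + 1)).im := by
      obtain ⟨a, b, c, d⟩ := hz
      rw [add_im]
      have : (ctr (m + 1)).im = -(1 + 6 * (u m / 4)) := by simp only [ctr, u_succ]
      linarith
    have b1 := abs_le.1 ((abs_im_le_norm _).trans a1)
    have b2 := abs_le.1 ((abs_im_le_norm _).trans a2)
    generalize (pt + ∑ k ∈ Finset.range m, h k z) = A at *
    generalize (pt + ∑ k ∈ Finset.range (m + 1), h k z) = B at *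
    generalize (z - ctr m + ctr (m + 1)) = C at *
    simp only [sub_im, add_im, mul_im, sub_re, one_re, ofReal_re, one_im, ofReal_im, sub_self,
      zero_mul, add_zero] at b1 b2
    nlinarith [mul_nonneg ht0 (sub_nonneg.2 a5), mul_nonneg (sub_nonneg.2 ht1) (sub_nonneg.2 a4)]

end Pool.Agent.MP_aa8c71_an

end

-- part MP_aa8c71_an.Dyn
section

set_option autoImplicit false

open Complex Set Metric Filter Topology

namespace Pool.Agent.MP_aa8c71_an

/-- gauge of the triangles -/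
def N (w : ℂ) : ℝ := max w.im (max (w.re - w.im) (-w.re - w.im))

theorem mem_Tri {w : ℂ} {r : ℝ} : w ∈ Tri r ↔ N w ≤ r := by
  simp only [N, max_le_iff]; rfl

theorem N_le (w v : ℂ) : N w ≤ N v + 2 * ‖w - v‖ := by
  have h1 := abs_le.1 (abs_re_le_norm (w - v))
  have h2 := abs_le.1 (abs_im_le_norm (w - v))
  obtain ⟨a, b, c⟩ := (mem_Tri (w := v)).2 le_rfl
  simp only [sub_re, sub_im] at h1 h2
  have := norm_nonneg (w - v)
  exact mem_Tri.1 ⟨by linarith, by linarith, by linarith⟩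

theorem continuous_N : Continuous N := by unfold N; fun_prop

theorem norm_le_N (w : ℂ) : ‖w‖ ≤ 3 * N w := by
  obtain ⟨a, b, c⟩ := (mem_Tri (w := w)).2 le_rfl
  refine (norm_le_abs_re_add_abs_im _).trans ?_
  have : |w.re| ≤ 2 * N w := abs_le.2 ⟨by linarith, by linarith⟩
  have : |w.im| ≤ N w := abs_le.2 ⟨by linarith, by linarith⟩
  linarith

structure Hyp (f : ℂ → ℂ) : Prop where
  diff : Differentiable ℂ f
  up : ∀ z, 0 ≤ z.im → ‖f z - pt‖ < 1
  out : ∀ m z, z - ctr m ∈ Tri 2 → z - ctr m ∈ Out (1 + 6 * u m) (u m) 10 → ‖f z - pt‖ < 1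
  tri : ∀ m z, z - ctr m ∈ Tri (1 + 5 * u m) → ‖f z - (z - ctr m + ctr (m + 1))‖ ≤ u m / 4
  seg : ∀ m z, z - ctr m ∈ Seg (1 + 5 * u m) (1 + 6 * u m) → 0 ≤ (f z).im

/-- the Fatou set -/
def FS (f : ℂ → ℂ) : Set ℂ :=
  {z : ℂ | ∃ V : Set ℂ, IsOpen V ∧ z ∈ V ∧
    ∀ y ∈ V, ∀ ε : ℝ, 0 < ε → ∃ δ : ℝ, 0 < δ ∧
      ∀ w : ℂ, dist w y < δ → ∀ n : ℕ,
        2 * ‖f^[n] y - f^[n] w‖ /
          (Real.sqrt (1 + ‖f^[n] y‖ ^ 2) * Real.sqrt (1 + ‖f^[n] w‖ ^ 2)) < ε}

theorem subset_FS {f : ℂ → ℂ} (hf : Differentiable ℂ f) {V : Set ℂ} (hV : IsOpen V) {M : ℝ}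
    (hM : ∀ n : ℕ, ∃ a : ℂ, ∀ z ∈ V, ‖f^[n] z - a‖ ≤ M) : V ⊆ FS f := by
  intro z hz
  refine ⟨V, hV, hz, fun y hy ε hε => ?_⟩
  obtain ⟨R, hR, hRV⟩ := Metric.isOpen_iff.1 hV y hy
  have hM0 : 0 ≤ M := by
    obtain ⟨a, ha⟩ := hM 0
    exact (norm_nonneg _).trans (ha z hz)
  refine ⟨min R (ε * R / (4 * M + 1)), lt_min hR (by positivity), fun w hw n => ?_⟩
  obtain ⟨a, ha⟩ := hM n
  have hw1 : w ∈ ball y R := hw.trans_le (min_le_left _ _)
  have hw2 : dist w y < ε * R / (4 * M + 1) := hw.trans_le (min_le_right _ _)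
  have h1 : dist (f^[n] w) (f^[n] y) ≤ (2 * M) / R * dist w y := by
    refine dist_le_div_mul_dist_of_mapsTo_ball (hf.iterate n).differentiableOn ?_ hw1
    intro x hx
    rw [mem_closedBall, dist_eq_norm]
    calc ‖f^[n] x - f^[n] y‖ = ‖(f^[n] x - a) - (f^[n] y - a)‖ := by ring_nf
      _ ≤ M + M := (norm_sub_le _ _).trans (add_le_add (ha x (hRV hx)) (ha y hy))
      _ = 2 * M := by ring
  rw [dist_comm, dist_eq_norm] at h1
  have s1 : 1 ≤ Real.sqrt (1 + ‖f^[n] y‖ ^ 2) := Real.one_le_sqrt.2 (by nlinarith [sq_nonneg ‖f^[n] y‖])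
  have s2 : 1 ≤ Real.sqrt (1 + ‖f^[n] w‖ ^ 2) := Real.one_le_sqrt.2 (by nlinarith [sq_nonneg ‖f^[n] w‖])
  refine (div_le_self (by positivity) (one_le_mul_of_one_le_of_one_le s1 s2)).trans_lt ?_
  rw [lt_div_iff₀ (by positivity)] at hw2
  have h2 : 2 * M / R * dist w y * R = 2 * M * dist w y := by field_simp
  have h3 : 0 ≤ dist w y := dist_nonneg
  have h4 : ‖f^[n] y - f^[n] w‖ * R ≤ 2 * M * dist w y := by rw [← h2]; gcongr
  have : 2 * ‖f^[n] y - f^[n] w‖ * R < ε * R := by nlinarith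
  exact lt_of_mul_lt_mul_right this hR.le

/-- the basin -/
def Om (f : ℂ → ℂ) : Set ℂ := {z | ∃ n : ℕ, ‖f^[n] z - pt‖ < 1}

theorem im_of_near {z : ℂ} (h : ‖z - pt‖ < 1) : 9 < z.im := by
  have := abs_lt.1 ((abs_im_le_norm _).trans_lt h)
  simp only [sub_im, pt] at this
  linarith

variable {f : ℂ → ℂ}

theorem Hyp.stay (H : Hyp f) {z : ℂ} (h : ‖z - pt‖ < 1) (n : ℕ) : ‖f^[n] z - pt‖ < 1 := by
  induction n with
  | zero => exact h
  | succ n ih =>
    rw [Function.iterate_succ_apply']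
    exact H.up _ (by linarith [im_of_near ih])

theorem Om_of_apply {z : ℂ} (h : f z ∈ Om f) : z ∈ Om f := by
  obtain ⟨n, hn⟩ := h
  exact ⟨n + 1, hn⟩

theorem Hyp.Om_of_im (H : Hyp f) {z : ℂ} (h : 0 ≤ z.im) : z ∈ Om f := ⟨1, H.up z h⟩

theorem Hyp.apply_Om (H : Hyp f) {z : ℂ} (h : z ∈ Om f) : f z ∈ Om f := by
  obtain ⟨n, hn⟩ := h
  refine ⟨n, ?_⟩
  have := H.stay hn 1
  rwa [← Function.iterate_add_apply, add_comm, Function.iterate_add_apply] at this

theorem Hyp.isOpen_Om (H : Hyp f) : IsOpen (Om f) := by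
  have : Om f = ⋃ n : ℕ, {z | ‖f^[n] z - pt‖ < 1} := by
    ext z; simp [Om]
  rw [this]
  refine isOpen_iUnion fun n => isOpen_lt ?_ continuous_const
  have := (H.diff.iterate n).continuous
  fun_prop

theorem Hyp.Om_subset (H : Hyp f) : Om f ⊆ FS f := by
  rintro z ⟨n, hn⟩
  have hc : ∀ k, Continuous (f^[k]) := fun k => (H.diff.iterate k).continuous
  obtain ⟨C, hC⟩ := (isCompact_closedBall z 1).exists_bound_of_continuousOn
    (f := fun w => ∑ k ∈ Finset.range n, ‖f^[k] w‖)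
    (continuous_finsetSum _ fun k _ => (hc k).norm).continuousOn
  refine subset_FS H.diff (V := ball z 1 ∩ {w | ‖f^[n] w - pt‖ < 1}) (M := max C 1)
    (isOpen_ball.inter (isOpen_lt ?_ continuous_const)) ?_ ⟨mem_ball_self one_pos, hn⟩
  · have := hc n
    fun_prop
  · intro k
    rcases lt_or_ge k n with h | h
    · refine ⟨0, fun w hw => ?_⟩
      rw [sub_zero]
      refine le_trans ?_ (le_max_left _ _)
      refine le_trans ?_ ((le_abs_self _).trans (hC w (ball_subset_closedBall hw.1)))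
      exact Finset.single_le_sum (f := fun k => ‖f^[k] w‖) (fun _ _ => norm_nonneg _)
        (Finset.mem_range.2 h)
    · refine ⟨pt, fun w hw => ?_⟩
      obtain ⟨j, rfl⟩ := Nat.exists_eq_add_of_le' h
      rw [Function.iterate_add_apply]
      exact (H.stay hw.2 j).le.trans (le_max_right _ _)

theorem Hyp.pt_mem (H : Hyp f) : pt ∈ FS f := H.Om_subset ⟨0, by simp⟩

theorem Hyp.U_subset (H : Hyp f) : connectedComponentIn (FS f) pt ⊆ Om f := by
  refine isPreconnected_connectedComponentIn.subset_of_closure_inter_subset H.isOpen_Om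
    ⟨pt, mem_connectedComponentIn H.pt_mem, 0, by simp⟩ ?_
  rintro z ⟨hz, hzU⟩
  obtain ⟨V, -, hzV, hV⟩ := connectedComponentIn_subset _ _ hzU
  obtain ⟨δ, hδ, hδ'⟩ := hV z hzV (1 / 18) (by norm_num)
  obtain ⟨w, ⟨n, hn⟩, hw⟩ := Metric.mem_closure_iff.1 hz δ hδ
  have h1 := hδ' w (by rwa [dist_comm]) n
  have h2 : 0 ≤ (f^[n] z).im := by
    by_contra hneg
    rw [not_le] at hneg
    generalize f^[n] z = a at *
    generalize f^[n] w = b at *
    have b1 := im_of_near hn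
    have b2 : ‖b‖ ≤ 11 := by
      have : ‖pt‖ = 10 := by
        have : pt = 10 * I := by apply Complex.ext <;> simp [pt]
        rw [this]; simp
      have h3 : ‖b‖ ≤ ‖b - pt‖ + ‖pt‖ := by simpa using norm_add_le (b - pt) pt
      linarith
    have b3 : 9 ≤ ‖a - b‖ := by
      have := abs_le.1 (abs_im_le_norm (a - b))
      rw [sub_im] at this
      linarith
    have b4 : ‖a‖ ≤ ‖a - b‖ + ‖b‖ := by simpa using norm_add_le (a - b) b
    have s1 : Real.sqrt (1 + ‖a‖ ^ 2) ≤ 3 * ‖a - b‖ := by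
      rw [Real.sqrt_le_left (by linarith)]
      nlinarith [norm_nonneg a]
    have s2 : Real.sqrt (1 + ‖b‖ ^ 2) ≤ 12 := by
      rw [Real.sqrt_le_left (by linarith)]
      nlinarith [norm_nonneg b]
    have s3 : 0 < Real.sqrt (1 + ‖a‖ ^ 2) * Real.sqrt (1 + ‖b‖ ^ 2) := by positivity
    rw [div_lt_iff₀ s3] at h1
    have s4 : Real.sqrt (1 + ‖a‖ ^ 2) * Real.sqrt (1 + ‖b‖ ^ 2) ≤ 3 * ‖a - b‖ * 12 := by gcongr
    linarith
  refine ⟨n + 1, ?_⟩
  rw [Function.iterate_succ_apply']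
  exact H.up _ h2

theorem Hyp.subset_U (H : Hyp f) {S : Set ℂ} (hS : IsPreconnected S) (hO : S ⊆ Om f) {x : ℂ}
    (hx : x ∈ S) (hxU : x ∈ connectedComponentIn (FS f) pt) :
    S ⊆ connectedComponentIn (FS f) pt := by
  rw [connectedComponentIn_eq hxU]
  exact hS.subset_connectedComponentIn hx (hO.trans H.Om_subset)

theorem Hyp.upper_subset (H : Hyp f) {z : ℂ} (hz : 0 ≤ z.im) :
    z ∈ connectedComponentIn (FS f) pt :=
  H.subset_U (poly_Upp 0).conn (fun _ hw => H.Om_of_im hw) (x := pt)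
    (show (0 : ℝ) ≤ 10 by norm_num) (mem_connectedComponentIn H.pt_mem) hz

theorem Hyp.invariant (H : Hyp f) :
    f '' connectedComponentIn (FS f) pt ⊆ connectedComponentIn (FS f) pt := by
  refine H.subset_U (isPreconnected_connectedComponentIn.image _ H.diff.continuous.continuousOn)
    ?_ (x := f pt) ⟨pt, mem_connectedComponentIn H.pt_mem, rfl⟩ ?_
  · rintro _ ⟨z, hz, rfl⟩
    exact H.apply_Om (H.U_subset hz)
  · have := im_of_near (H.up pt (show (0 : ℝ) ≤ 10 by norm_num))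
    exact H.upper_subset (by linarith)

/-- the slightly smaller triangles on which `f` is injective -/
def Q (m : ℕ) : Set ℂ := {z | N (z - ctr m) ≤ 1 + 4 * u m}

theorem convex_Q (m : ℕ) : Convex ℝ (Q m) := by
  have : Q m = (fun z => -ctr m + z) ⁻¹' Tri (1 + 4 * u m) := by
    ext z
    simp only [Q, mem_setOf_eq, mem_preimage, mem_Tri, neg_add_eq_sub]
  rw [this]
  exact (poly_Tri _).1.translate_preimage_right _

theorem Hyp.lip (H : Hyp f) (m : ℕ) {x y : ℂ} (hx : x ∈ Q m) (hy : y ∈ Q m) :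
    ‖f x - f y - (x - y)‖ ≤ 1 / 2 * ‖x - y‖ := by
  let g : ℂ → ℂ := fun z => f z - (z - ctr m + ctr (m + 1))
  have hg : Differentiable ℂ g := H.diff.sub (by fun_prop)
  have hu := u_pos m
  have hb : ∀ z ∈ Q m, ‖deriv g z‖ ≤ 1 / 2 := by
    intro z hz
    have := norm_deriv_le_of_forall_mem_sphere_norm_le (c := z) (R := u m / 2) (C := u m / 4)
      (f := g) (by positivity) hg.diffContOnCl (by
        intro w hw
        apply H.tri m w
        rw [mem_Tri]
        rw [mem_sphere, dist_eq_norm] at hw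
        have h1 := N_le (w - ctr m) (z - ctr m)
        rw [sub_sub_sub_cancel_right, hw] at h1
        have h2 : N (z - ctr m) ≤ 1 + 4 * u m := hz
        linarith)
    refine this.trans (le_of_eq ?_)
    field_simp; ring
  have := (convex_Q m).norm_image_sub_le_of_norm_deriv_le (fun z _ => hg z) hb hy hx
  refine le_trans (le_of_eq ?_) this
  simp only [g]; ring_nf

theorem Hyp.anti (H : Hyp f) (m : ℕ) {x y : ℂ} (hx : x ∈ Q m) (hy : y ∈ Q m) :
    ‖x - y‖ ≤ 2 * ‖f x - f y‖ := by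
  have h1 := H.lip m hx hy
  have h2 : ‖x - y‖ ≤ ‖f x - f y‖ + ‖f x - f y - (x - y)‖ := by
    simpa using norm_sub_le (f x - f y) (f x - f y - (x - y))
  linarith

theorem Hyp.surj (H : Hyp f) (m : ℕ) {y : ℂ} (hy : N (y - ctr (m + 1)) ≤ 1 + 12 * u (m + 1)) :
    ∃ x ∈ Q m, f x = y := by
  rw [u_succ] at hy
  have hu := u_pos m
  have hA : ApproximatesLinearOn f (ContinuousLinearMap.id ℂ ℂ) (Q m) (1 / 2) := by
    intro x hx z hz
    simpa using H.lip m hx hz
  let e : (ContinuousLinearMap.id ℂ ℂ).NonlinearRightInverse :=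
    ⟨fun z => z, 1, fun z => by simp, fun z => rfl⟩
  set b := y - ctr (m + 1) + ctr m with hb
  have hsub : closedBall b (u m / 2) ⊆ Q m := by
    intro w hw
    rw [mem_closedBall, dist_eq_norm] at hw
    have h1 := N_le (w - ctr m) (b - ctr m)
    rw [sub_sub_sub_cancel_right] at h1
    have h2 : b - ctr m = y - ctr (m + 1) := by rw [hb]; ring
    rw [h2] at h1
    show N (w - ctr m) ≤ 1 + 4 * u m
    linarith
  have h3 := hA.surjOn_closedBall_of_nonlinearRightInverse e (by positivity) hsub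
  have h4 : y ∈ closedBall (f b) ((((e.nnnorm : NNReal) : ℝ)⁻¹ - ((1 / 2 : NNReal) : ℝ)) * (u m / 2)) := by
    rw [mem_closedBall, dist_comm, dist_eq_norm]
    have h5 := H.tri m b (by
      rw [mem_Tri]
      have : N (b - ctr m) ≤ 1 + 4 * u m := hsub (mem_closedBall_self (by positivity))
      linarith)
    have h6 : b - ctr m + ctr (m + 1) = y := by rw [hb]; ring
    rw [h6] at h5
    refine h5.trans (le_of_eq ?_)
    simp only [e]
    push_cast; ring
  obtain ⟨x, hx, hxy⟩ := h3 h4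
  exact ⟨x, hsub hx, hxy⟩

theorem Hyp.conn_preimage (H : Hyp f) (m : ℕ) {A : Set ℂ} (hA : IsPreconnected A)
    (hA' : ∀ y ∈ A, N (y - ctr (m + 1)) ≤ 1 + 12 * u (m + 1)) :
    IsPreconnected (Q m ∩ f ⁻¹' A) := by
  have hex : ∀ y : ℂ, ∃ x : ℂ, y ∈ A → x ∈ Q m ∧ f x = y := by
    intro y
    by_cases hy : y ∈ A
    · obtain ⟨x, hx⟩ := H.surj m (hA' y hy)
      exact ⟨x, fun _ => hx⟩
    · exact ⟨0, fun h => absurd h hy⟩
  choose g hg using hex
  have hlip : LipschitzOnWith 2 g A := by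
    refine LipschitzOnWith.of_dist_le_mul fun x hx y hy => ?_
    have := H.anti m (hg x hx).1 (hg y hy).1
    rw [(hg x hx).2, (hg y hy).2] at this
    simpa [dist_eq_norm] using this
  have : Q m ∩ f ⁻¹' A = g '' A := by
    ext x
    constructor
    · rintro ⟨hx, hxA⟩
      refine ⟨f x, hxA, ?_⟩
      have := H.anti m (hg _ hxA).1 hx
      rw [(hg _ hxA).2, sub_self, norm_zero, mul_zero] at this
      exact sub_eq_zero.1 (norm_le_zero_iff.1 this)
    · rintro ⟨y, hy, rfl⟩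
      exact ⟨(hg y hy).1, by rw [mem_preimage, (hg y hy).2]; exact hy⟩
  rw [this]
  exact hA.image _ hlip.continuousOn

def Gam0 (v : ℝ) : Set ℂ := (Out (1 + 6 * v) v 10 ∩ Tri (1 + 12 * v)) ∪ Seg (1 + 2 * v) (1 + 6 * v)

theorem conn_Gam0 {v : ℝ} (hv : 0 < v) : IsPreconnected (Gam0 v) := by
  unfold Gam0 Out
  rw [union_inter_distrib_right, union_inter_distrib_right]
  refine IsPreconnected.union (⟨0, 1 + 6 * v⟩ : ℂ) (Or.inl (Or.inl ⟨le_refl (1 + 6 * v), ?_⟩)) ?_ ?_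
    (poly_Seg _ _).conn
  · refine ⟨?_, ?_, ?_⟩ <;> simp only <;> linarith
  · refine ⟨?_, ?_, ?_, ?_⟩ <;> simp only <;> linarith
  refine IsPreconnected.union (⟨2 * (1 + 6 * v), 1 + 6 * v⟩ : ℂ) (Or.inl ⟨le_refl (1 + 6 * v), ?_⟩)
    ⟨?_, ?_⟩ ?_ ((poly_Rgt _ _ _).inter (poly_Tri _)).conn
  · refine ⟨?_, ?_, ?_⟩ <;> simp only <;> linarith
  · refine ⟨?_, ?_, ?_⟩ <;> simp only <;> linarith
  · refine ⟨?_, ?_, ?_⟩ <;> simp only <;> linarith
  refine IsPreconnected.union (⟨-(2 * (1 + 6 * v)), 1 + 6 * v⟩ : ℂ) ⟨le_refl (1 + 6 * v), ?_⟩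
    ⟨?_, ?_⟩ ((poly_Upp _).inter (poly_Tri _)).conn ((poly_Lft _ _ _).inter (poly_Tri _)).conn
  · refine ⟨?_, ?_, ?_⟩ <;> simp only <;> linarith
  · refine ⟨?_, ?_, ?_⟩ <;> simp only <;> linarith
  · refine ⟨?_, ?_, ?_⟩ <;> simp only <;> linarith

theorem Gam0_dense {v : ℝ} (hv : 0 < v) (hv' : v ≤ 1 / 16) {w : ℂ} (h1 : 1 - v ≤ N w)
    (h2 : N w ≤ 1 + v) : ∃ y ∈ Gam0 v, ‖y - w‖ ≤ 8 * v := by
  obtain ⟨a, b, c⟩ := mem_Tri.2 h2
  have key : ∀ s t : ℝ, |s| + |t| ≤ 8 * v → ‖(w + ⟨s, t⟩) - w‖ ≤ 8 * v := by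
    intro s t h
    rw [add_sub_cancel_left]
    exact (norm_le_abs_re_add_abs_im _).trans h
  have h8 : |8 * v| = 8 * v := abs_of_pos (by linarith)
  rcases le_max_iff.1 h1 with h | h
  · refine ⟨w + ⟨0, 8 * v⟩, Or.inl ⟨Or.inl (Or.inl ?_), ?_, ?_, ?_⟩, key _ _ (by simp [h8])⟩
    · show 1 + 6 * v ≤ _
      simp only [add_im]; linarith
    all_goals simp only [add_im, add_re]; linarith
  rcases le_max_iff.1 h with h | h
  · refine ⟨w + ⟨8 * v, 0⟩, Or.inl ⟨Or.inr ⟨?_, ?_, ?_⟩, ?_, ?_, ?_⟩, key _ _ (by simp [h8])⟩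
    all_goals simp only [add_im, add_re]; linarith
  · refine ⟨w + ⟨-(8 * v), 0⟩, Or.inl ⟨Or.inl (Or.inr ⟨?_, ?_, ?_⟩), ?_, ?_, ?_⟩,
      key _ _ (by simp [h8])⟩
    all_goals simp only [add_im, add_re]; linarith

def Gam (m : ℕ) : Set ℂ := {z | z - ctr m ∈ Gam0 (u m)}

theorem conn_Gam (m : ℕ) : IsPreconnected (Gam m) := by
  have : Gam m = (fun w => w + ctr m) '' Gam0 (u m) := by
    ext z
    constructor
    · intro hz
      exact ⟨z - ctr m, hz, by simp⟩
    · rintro ⟨w, hw, rfl⟩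
      simpa [Gam] using hw
  rw [this]
  exact (conn_Gam0 (u_pos m)).image _ (by fun_prop)

theorem Gam_bound {m : ℕ} {z : ℂ} (hz : z ∈ Gam m) : N (z - ctr m) ≤ 1 + 12 * u m := by
  rcases hz with ⟨-, h⟩ | ⟨a, b, c, d⟩
  · exact mem_Tri.1 h
  · have := u_pos m
    exact mem_Tri.1 ⟨by linarith, by linarith, by linarith⟩

theorem Hyp.Gam_Om (H : Hyp f) (m : ℕ) : Gam m ⊆ Om f := by
  have a1 := u_pos m
  have a2 := u_le m
  rintro z (⟨h1, h2⟩ | ⟨a, b, c, d⟩)
  · refine ⟨1, H.out m z ?_ h1⟩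
    rw [mem_Tri] at h2 ⊢; linarith
  · refine Om_of_apply (H.Om_of_im ?_)
    rcases le_total (z - ctr m).im (1 + 5 * u m) with h | h
    · have h3 := H.tri m z ⟨h, by linarith, by linarith⟩
      have h4 := abs_le.1 ((abs_im_le_norm _).trans h3)
      have : (ctr (m + 1)).im = -(1 + 6 * (u m / 4)) := by simp only [ctr, u_succ]
      rw [sub_im, add_im] at h4
      linarith
    · exact H.seg m z ⟨a, b, h, d⟩

/-- pull-backs of the sets `Gam` along the orbit of triangles -/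
def P (f : ℂ → ℂ) : ℕ → ℕ → Set ℂ
  | 0, m => Gam m
  | j + 1, m => Q m ∩ f ⁻¹' P f j (m + 1)

theorem P_bound (j m : ℕ) {z : ℂ} (hz : z ∈ P f j m) : N (z - ctr m) ≤ 1 + 12 * u m := by
  cases j with
  | zero => exact Gam_bound hz
  | succ j =>
    have : N (z - ctr m) ≤ 1 + 4 * u m := hz.1
    linarith [u_pos m]

theorem Hyp.conn_P (H : Hyp f) (j : ℕ) : ∀ m, IsPreconnected (P f j m) := by
  induction j with
  | zero => exact conn_Gam
  | succ j ih => exact fun m => H.conn_preimage m (ih (m + 1)) fun y hy => P_bound j _ hy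

theorem Hyp.P_Om (H : Hyp f) (j : ℕ) : ∀ m, P f j m ⊆ Om f := by
  induction j with
  | zero => exact H.Gam_Om
  | succ j ih => exact fun m z hz => Om_of_apply (ih (m + 1) hz.2)

theorem Hyp.P_meet (H : Hyp f) (j : ℕ) : ∀ m, ∃ x, x ∈ P f (j + 1) m ∧ x ∈ P f j m := by
  induction j with
  | zero =>
    intro m
    have a1 := u_pos m
    have a2 := u_le m
    have e : (⟨0, 1 + 2 * u m⟩ + ctr m) - ctr m = (⟨0, 1 + 2 * u m⟩ : ℂ) := by ring
    have hN : N ⟨0, 1 + 2 * u m⟩ ≤ 1 + 2 * u m := by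
      refine mem_Tri.1 ⟨?_, ?_, ?_⟩ <;> simp only <;> linarith
    refine ⟨⟨0, 1 + 2 * u m⟩ + ctr m, ⟨?_, ?_⟩, ?_⟩
    · show N _ ≤ _
      rw [e]; linarith
    · have h3 := H.tri m (⟨0, 1 + 2 * u m⟩ + ctr m) (by rw [e, mem_Tri]; linarith)
      rw [e, ← sub_sub, sub_right_comm] at h3
      have h4 := abs_le.1 ((abs_im_le_norm _).trans h3)
      left
      refine ⟨Or.inl (Or.inl ?_), ?_⟩
      · show 1 + 6 * u (m + 1) ≤ _
        rw [sub_im] at h4
        rw [u_succ]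
        simp only at h4
        linarith
      · have := N_le (f (⟨0, 1 + 2 * u m⟩ + ctr m) - ctr (m + 1)) ⟨0, 1 + 2 * u m⟩
        rw [mem_Tri, u_succ]
        linarith
    · right
      rw [e]
      refine ⟨?_, ?_, ?_, ?_⟩ <;> simp only <;> linarith
  | succ j ih =>
    intro m
    obtain ⟨y, hy1, hy2⟩ := ih (m + 1)
    obtain ⟨x, hx, rfl⟩ := H.surj m (P_bound _ _ hy1)
    exact ⟨x, ⟨hx, hy1⟩, ⟨hx, hy2⟩⟩

theorem Hyp.P_U (H : Hyp f) (j : ℕ) : ∀ m, P f j m ⊆ connectedComponentIn (FS f) pt := by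
  induction j with
  | zero =>
    intro m
    have a1 := u_pos m
    refine H.subset_U (conn_Gam m) (H.Gam_Om m) (x := ⟨0, 1 + 6 * u m⟩ + ctr m) ?_
      (H.upper_subset ?_)
    · right
      rw [add_sub_cancel_right]
      refine ⟨?_, ?_, ?_, ?_⟩ <;> simp only <;> linarith
    · simp [ctr]
  | succ j ih =>
    intro m
    obtain ⟨x, h1, h2⟩ := H.P_meet j m
    exact H.subset_U (H.conn_P _ m) (H.P_Om _ m) h1 (ih m h2)

theorem Hyp.pullback (H : Hyp f) (j : ℕ) : ∀ (m : ℕ) (z : ℂ), (∀ k, f^[k] z ∈ Q (m + k)) →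
    ∀ y ∈ Gam (m + j), ∃ y' ∈ P f j m, ‖y' - z‖ ≤ 2 ^ j * ‖y - f^[j] z‖ := by
  induction j with
  | zero => exact fun m z _ y hy => ⟨y, hy, by simp⟩
  | succ j ih =>
    intro m z hz y hy
    obtain ⟨y1, h1, h2⟩ := ih (m + 1) (f z) (fun k => by
      have := hz (k + 1)
      rwa [Function.iterate_succ_apply, add_comm k 1, ← add_assoc] at this) y (by
      rwa [add_comm j 1, ← add_assoc] at hy)
    obtain ⟨x, hx, rfl⟩ := H.surj m (P_bound _ _ h1)
    refine ⟨x, ⟨hx, h1⟩, ?_⟩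
    have := H.anti m hx (hz 0)
    rw [Function.iterate_succ_apply, pow_succ]
    simp only [Function.iterate_zero, id_eq] at this
    linarith

/-- the wandering open set -/
def O (f : ℂ → ℂ) : Set ℂ :=
  {z | ∃ n : ℕ, (∀ k ≤ n, N (f^[k] z - ctr k) < 1 + 4 * u k) ∧ N (f^[n] z - ctr n) + u n < 1}

theorem Hyp.isOpen_O (H : Hyp f) : IsOpen (O f) := by
  have hc : ∀ k, Continuous (fun z => N (f^[k] z - ctr k)) := fun k =>
    continuous_N.comp ((H.diff.iterate k).continuous.sub continuous_const)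
  have : O f = ⋃ n : ℕ, ((⋂ k ∈ Finset.range (n + 1), {z | N (f^[k] z - ctr k) < 1 + 4 * u k}) ∩
      {z | N (f^[n] z - ctr n) + u n < 1}) := by
    ext z; simp [O, Nat.lt_succ_iff]
  rw [this]
  refine isOpen_iUnion fun n => IsOpen.inter
    (isOpen_biInter_finset fun k _ => isOpen_lt (hc k) continuous_const)
    (isOpen_lt ((hc n).add continuous_const) continuous_const)

theorem Hyp.N_step (H : Hyp f) (k : ℕ) {z : ℂ} (h : N (z - ctr k) ≤ 1 + 5 * u k) :
    N (f z - ctr (k + 1)) ≤ N (z - ctr k) + u k / 2 ∧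
      N (z - ctr k) ≤ N (f z - ctr (k + 1)) + u k / 2 := by
  have h1 := H.tri k z (mem_Tri.2 h)
  have e : f z - (z - ctr k + ctr (k + 1)) = f z - ctr (k + 1) - (z - ctr k) := by ring
  rw [e] at h1
  have h2 := N_le (f z - ctr (k + 1)) (z - ctr k)
  have h3 := N_le (z - ctr k) (f z - ctr (k + 1))
  rw [norm_sub_rev] at h3
  constructor <;> linarith

theorem Hyp.O_bound (H : Hyp f) {z : ℂ} (hz : z ∈ O f) (k : ℕ) :
    N (f^[k] z - ctr k) ≤ 1 + u k := by
  obtain ⟨n, h1, h2⟩ := hz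
  rcases le_total n k with h | h
  · have : N (f^[k] z - ctr k) + u k < 1 := by
      induction k, h using Nat.le_induction with
      | base => exact h2
      | succ k _ ih =>
        have a := u_pos k
        have := (H.N_step k (z := f^[k] z) (by linarith)).1
        rw [Function.iterate_succ_apply', u_succ]
        linarith
    linarith [u_pos k]
  · induction h using Nat.decreasingInduction with
    | self => linarith [u_pos n]
    | of_succ k hk ih =>
      have a := u_pos k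
      have := (H.N_step k (z := f^[k] z) (by linarith [h1 k hk.le])).2
      rw [Function.iterate_succ_apply', u_succ] at ih
      linarith

theorem Hyp.O_subset (H : Hyp f) : O f ⊆ FS f :=
  subset_FS H.diff H.isOpen_O (M := 6) fun n => ⟨ctr n, fun z hz => by
    linarith [norm_le_N (f^[n] z - ctr n), H.O_bound hz n, u_le n]⟩

theorem Hyp.O_not_Om (H : Hyp f) {z : ℂ} (hz : z ∈ O f) : z ∉ Om f := by
  rintro ⟨n, hn⟩
  have h1 := im_of_near hn
  have h2 := (mem_Tri.2 (H.O_bound hz n)).1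
  simp only [sub_im, ctr] at h2
  linarith [u_pos n]

theorem ctr_mem_O : ctr 0 ∈ O f := by
  have h : N 0 = 0 := by simp [N]
  refine ⟨0, fun k hk => ?_, ?_⟩
  · obtain rfl : k = 0 := by omega
    simp only [Function.iterate_zero, id_eq, sub_self, h]
    linarith [u_pos 0]
  · simp only [Function.iterate_zero, id_eq, sub_self, h]
    linarith [u_le 0]

theorem Hyp.frontier_O (H : Hyp f) {z : ℂ} (hz : z ∈ closure (O f)) (hz' : z ∉ O f) :
    z ∈ closure (connectedComponentIn (FS f) pt) := by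
  have h1 : ∀ k, N (f^[k] z - ctr k) ≤ 1 + u k := by
    intro k
    have hc : Continuous (fun z => N (f^[k] z - ctr k)) :=
      continuous_N.comp ((H.diff.iterate k).continuous.sub continuous_const)
    exact closure_minimal (t := {z | N (f^[k] z - ctr k) ≤ 1 + u k})
      (fun w hw => H.O_bound hw k) (isClosed_le hc continuous_const) hz
  have h2 : ∀ k, 1 - u k ≤ N (f^[k] z - ctr k) := by
    intro n
    by_contra h
    exact hz' ⟨n, fun k _ => by linarith [h1 k, u_pos k], by linarith⟩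
  rw [Metric.mem_closure_iff]
  intro ε hε
  obtain ⟨n, hn⟩ := exists_pow_lt_of_lt_one hε (show (1 / 2 : ℝ) < 1 by norm_num)
  obtain ⟨y, hy, hy'⟩ := Gam0_dense (u_pos n) (u_le n) (h2 n) (h1 n)
  obtain ⟨y', h3, h4⟩ := H.pullback n 0 z (fun k => by
    rw [zero_add]
    show N _ ≤ _
    linarith [h1 k, u_pos k]) (y + ctr n) (by
    rw [zero_add]
    simpa [Gam] using hy)
  refine ⟨y', H.P_U n 0 h3, ?_⟩
  rw [dist_comm, dist_eq_norm]
  have e : y + ctr n - f^[n] z = y - (f^[n] z - ctr n) := by ring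
  rw [e] at h4
  calc ‖y' - z‖ ≤ 2 ^ n * (8 * u n) := h4.trans (by gcongr)
    _ = (1 / 2) ^ n / 2 := by
        unfold u
        have : (1 / 2 : ℝ) ^ n = 2 ^ n * (1 / 4) ^ n := by rw [← mul_pow]; norm_num
        rw [this]; ring
    _ < ε := by linarith [pow_pos (show (0 : ℝ) < 1 / 2 by norm_num) n]

theorem Hyp.ctr_not_mem (H : Hyp f) : ctr 0 ∉ closure (connectedComponentIn (FS f) pt) := by
  intro h
  obtain ⟨w, hw1, hw2⟩ := mem_closure_iff.1 h _ H.isOpen_O ctr_mem_O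
  exact H.O_not_Om hw1 (H.U_subset hw2)

theorem Hyp.comp_subset (H : Hyp f) :
    connectedComponentIn (closure (connectedComponentIn (FS f) pt))ᶜ (ctr 0) ⊆ FS f := by
  refine Subset.trans ?_ H.O_subset
  refine isPreconnected_connectedComponentIn.subset_of_closure_inter_subset H.isOpen_O
    ⟨ctr 0, mem_connectedComponentIn H.ctr_not_mem, ctr_mem_O⟩ ?_
  rintro z ⟨hz, hzW⟩
  by_contra h
  exact connectedComponentIn_subset _ _ hzW (H.frontier_O hz h)

theorem Hyp.not_poly (H : Hyp f) : ¬ ∃ p : Polynomial ℂ, ∀ z, f z = p.eval z := by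
  rintro ⟨p, hp⟩
  by_cases hd : 0 < p.degree
  · have h1 := p.tendsto_norm_atTop hd (l := atTop) (z := fun x : ℝ => (x : ℂ))
      (by simpa using tendsto_abs_atTop_atTop)
    obtain ⟨x, hx⟩ := (h1.eventually (eventually_gt_atTop (‖pt‖ + 1))).exists
    have h2 := H.up x (by simp)
    rw [← hp] at hx
    have h3 : ‖f x‖ ≤ ‖f x - pt‖ + ‖pt‖ := by simpa using norm_add_le (f x - pt) pt
    linarith
  · have h1 := Polynomial.eq_C_of_degree_le_zero (not_lt.1 hd)
    have h2 : f (ctr 0) = f 0 := by rw [hp, hp, h1]; simp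
    refine H.O_not_Om ctr_mem_O ⟨1, ?_⟩
    simpa [h2] using H.up 0 (by simp)

theorem exists_hyp : ∃ f, Hyp f := by
  obtain ⟨f, h1, h2, h3, h4, h5⟩ := exists_f
  exact ⟨f, h1, h2, h3, h4, h5⟩

end Pool.Agent.MP_aa8c71_an

end
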