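import Pool.Agent.MP_aa8c71_an.Mg.Dyn
import Pool.Agent.MP_aa8c71_an.H58.Defs

set_option autoImplicit false

open Complex Set Metric Filter Topology

namespace Pool.Agent.MP_aa8c71_an.H58

variable {f : ℂ → ℂ}

theorem normal_of_tendsto (hf : Differentiable ℂ f) {V : Set ℂ}
    (h : (∃ h : ℂ → ℂ, DifferentiableOn ℂ h V ∧
        TendstoLocallyUniformlyOn (fun n => f^[n]) h atTop V) ∨
      (∀ K ⊆ V, IsCompact K → ∀ M : ℝ, ∀ᶠ n in atTop, ∀ z ∈ K, M ≤ ‖f^[n] z‖)) :
    IsNormalOn {g | ∃ n : ℕ, 1 ≤ n ∧ g = f^[n]} V := by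
  intro g hg
  choose n _ hn using hg
  by_cases ht : Tendsto n atTop atTop
  · refine ⟨id, strictMono_id, ?_⟩
    rcases h with ⟨h, hd, hc⟩ | h
    · refine Or.inl ⟨h, hd, fun u hu x hx => ?_⟩
      obtain ⟨t, ht1, ht2⟩ := hc u hu x hx
      refine ⟨t, ht1, (ht.eventually ht2).mono fun k hk y hy => ?_⟩
      simpa [hn] using hk y hy
    · refine Or.inr fun K hK hKc M => (ht.eventually (h K hK hKc M)).mono fun k hk z hz => ?_
      simpa [hn] using hk z hz
  · have h1 : ∃ c, ∃ᶠ k in atTop, n k = c := by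
      by_contra hc
      push Not at hc
      apply ht
      refine tendsto_atTop.2 fun b => ?_
      have h2 : ∀ᶠ k in atTop, ∀ c ∈ Finset.range b, n k ≠ c :=
        (eventually_all_finset _).2 fun c _ => hc c
      refine h2.mono fun k hk => ?_
      by_contra hb
      exact hk (n k) (Finset.mem_range.2 (not_le.1 hb)) rfl
    obtain ⟨c, hc⟩ := h1
    obtain ⟨φ, hφ, hφ'⟩ := extraction_of_frequently_atTop hc
    refine ⟨φ, hφ, Or.inl ⟨f^[c], (hf.iterate c).differentiableOn, fun u hu x _ => ?_⟩⟩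
    refine ⟨V, self_mem_nhdsWithin, Eventually.of_forall fun k y _ => ?_⟩
    simp only [hn, hφ']
    exact refl_mem_uniformity hu

theorem isOpen_fatouSet : IsOpen (fatouSet f) := by
  refine isOpen_iff_forall_mem_open.2 ?_
  rintro z ⟨V, hV, hz, hN⟩
  exact ⟨V, fun w hw => ⟨V, hV, hw, hN⟩, hV, hz⟩

theorem deriv_le (H : Hyp f) {z : ℂ} (hz : z ∈ closedBall pt 1) : ‖deriv f z‖ ≤ 1 / 8 := by
  have hg : Differentiable ℂ (fun w => f w - pt) := H.diff.sub_const _
  have h1 := norm_deriv_le_of_forall_mem_sphere_norm_le (c := z) (R := 8) (C := 1)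
    (f := fun w => f w - pt) (by norm_num) hg.diffContOnCl (by
      intro w hw
      refine (H.up w ?_).le
      rw [mem_sphere, dist_eq_norm] at hw
      rw [mem_closedBall, dist_eq_norm] at hz
      have a := abs_le.1 ((abs_im_le_norm (w - z)).trans hw.le)
      have b := abs_le.1 ((abs_im_le_norm (z - pt)).trans hz)
      simp only [sub_im, pt] at a b
      linarith)
  rwa [deriv_sub_const] at h1

theorem lip_ball (H : Hyp f) {x y : ℂ} (hx : x ∈ closedBall pt 1) (hy : y ∈ closedBall pt 1) :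
    ‖f x - f y‖ ≤ 1 / 8 * ‖x - y‖ :=
  (convex_closedBall pt 1).norm_image_sub_le_of_norm_deriv_le (fun z _ => H.diff z)
    (fun _ hz => deriv_le H hz) hy hx

theorem mapsTo_ball (H : Hyp f) : MapsTo f (closedBall pt 1) (closedBall pt 1) := by
  intro z hz
  rw [mem_closedBall, dist_eq_norm] at hz ⊢
  refine (H.up z ?_).le
  have b := abs_le.1 ((abs_im_le_norm (z - pt)).trans hz)
  simp only [sub_im, pt] at b
  linarith

theorem exists_fixed (H : Hyp f) : ∃ p ∈ closedBall pt 1, f p = p := by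
  have hK : ContractingWith (1 / 8 : NNReal) ((mapsTo_ball H).restrict f _ _) := by
    refine ⟨by norm_num, LipschitzWith.of_dist_le_mul fun x y => ?_⟩
    have := lip_ball H x.2 y.2
    simpa [Subtype.dist_eq, dist_eq_norm] using this
  obtain ⟨p, hp, hfix, -⟩ := hK.exists_fixedPoint' isClosed_closedBall.isComplete (mapsTo_ball H)
    (mem_closedBall_self zero_le_one) (edist_ne_top _ _)
  exact ⟨p, hp, hfix⟩

theorem iter_near (H : Hyp f) {p : ℂ} (hp : p ∈ closedBall pt 1) (hfix : f p = p) {w : ℂ}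
    (hw : w ∈ closedBall pt 1) (k : ℕ) : ‖f^[k] w - p‖ ≤ (1 / 8) ^ k * 2 := by
  induction k with
  | zero =>
    have := dist_triangle_right w p pt
    rw [mem_closedBall] at hp hw
    rw [dist_eq_norm] at this
    simp only [Function.iterate_zero, id_eq, pow_zero]
    linarith
  | succ k ih =>
    have h1 := lip_ball H ((mapsTo_ball H).iterate k hw) hp
    rw [hfix] at h1
    rw [Function.iterate_succ_apply', pow_succ]
    linarith

theorem Om_subset (H : Hyp f) : Om f ⊆ fatouSet f := by
  rintro z ⟨n, hn⟩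
  obtain ⟨p, hp, hfix⟩ := exists_fixed H
  refine ⟨{w | ‖f^[n] w - pt‖ < 1}, isOpen_lt ?_ continuous_const, hn,
    normal_of_tendsto H.diff (Or.inl ⟨fun _ => p, differentiableOn_const _, ?_⟩)⟩
  · have := (H.diff.iterate n).continuous
    fun_prop
  · refine TendstoUniformlyOn.tendstoLocallyUniformlyOn ?_
    rw [Metric.tendstoUniformlyOn_iff]
    intro ε hε
    obtain ⟨j, hj⟩ := exists_pow_lt_of_lt_one (half_pos hε) (show (1 / 8 : ℝ) < 1 by norm_num)
    filter_upwards [eventually_ge_atTop (j + n)] with k hk w hw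
    obtain ⟨i, rfl⟩ : ∃ i, k = i + n := ⟨k - n, by omega⟩
    have h1 := iter_near H hp hfix (w := f^[n] w)
      (by rw [mem_closedBall, dist_eq_norm]; exact le_of_lt hw) i
    have h2 : (1 / 8 : ℝ) ^ i ≤ (1 / 8) ^ j :=
      pow_le_pow_of_le_one (by norm_num) (by norm_num) (by omega)
    rw [dist_comm, dist_eq_norm, Function.iterate_add_apply]
    linarith

theorem re_bound (H : Hyp f) {z : ℂ} (hz : z ∈ O f) (k : ℕ) : |(f^[k] z).re - 10 * k| ≤ 4 := by
  have h1 := norm_le_N (f^[k] z - ctr k)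
  have h2 := H.O_bound hz k
  have h3 := u_le k
  have h4 := abs_re_le_norm (f^[k] z - ctr k)
  have h5 : (f^[k] z - ctr k).re = (f^[k] z).re - 10 * k := by simp [ctr]
  rw [h5] at h4
  linarith

theorem O_subset (H : Hyp f) : O f ⊆ fatouSet f := by
  intro z hz
  refine ⟨O f, H.isOpen_O, hz, normal_of_tendsto H.diff (Or.inr fun K hK _ M => ?_)⟩
  obtain ⟨j, hj⟩ := exists_nat_ge (M + 4)
  filter_upwards [eventually_ge_atTop j] with k hk w hw
  have h1 := abs_le.1 (re_bound H (hK hw) k)
  have h2 := le_abs_self (f^[k] w).re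
  have h3 := abs_re_le_norm (f^[k] w)
  have h4 : (j : ℝ) ≤ k := by exact_mod_cast hk
  have h5 : (0 : ℝ) ≤ k := Nat.cast_nonneg k
  linarith

theorem pt_mem_Om : pt ∈ Om f := ⟨0, by simp⟩

theorem Om_bound (H : Hyp f) {w : ℂ} (hw : w ∈ Om f) : ∀ᶠ k in atTop, ‖f^[k] w - pt‖ < 1 := by
  obtain ⟨n, hn⟩ := hw
  filter_upwards [eventually_ge_atTop n] with k hk
  obtain ⟨i, rfl⟩ : ∃ i, k = i + n := ⟨k - n, by omega⟩
  rw [Function.iterate_add_apply]
  exact H.stay hn i

theorem mem_Om_of_closure (H : Hyp f) {z : ℂ} (hz : z ∈ closure (Om f)) (hF : z ∈ fatouSet f) :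
    z ∈ Om f := by
  obtain ⟨V, hV, hzV, hN⟩ := hF
  obtain ⟨φ, hφ, h⟩ := hN (fun k => f^[k + 1]) fun k => ⟨k + 1, by omega, rfl⟩
  have hφt : Tendsto (fun k => φ k + 1) atTop atTop :=
    (tendsto_add_atTop_nat 1).comp hφ.tendsto_atTop
  rcases h with ⟨h, hd, hc⟩ | h
  · have h1 : ∀ w ∈ V ∩ Om f, h w ∈ closedBall pt 1 := by
      intro w hw
      refine isClosed_closedBall.mem_of_tendsto (hc.tendsto_at hw.1) ?_
      refine (hφt.eventually (Om_bound H hw.2)).mono fun k hk => ?_
      rw [mem_closedBall, dist_eq_norm]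
      exact hk.le
    have h2 : h z ∈ closedBall pt 1 := by
      have h3 : z ∈ closure (V ∩ Om f) := hV.inter_closure ⟨hzV, hz⟩
      have h4 : ContinuousWithinAt h (V ∩ Om f) z :=
        (hd.continuousOn z hzV).mono inter_subset_left
      exact isClosed_closedBall.closure_subset
        (h4.mem_closure h3 (t := closedBall pt 1) fun w hw => h1 w hw)
    obtain ⟨k, hk⟩ := ((Metric.tendsto_nhds.1 (hc.tendsto_at hzV)) 1 one_pos).exists
    rw [mem_closedBall, dist_eq_norm] at h2
    rw [dist_eq_norm] at hk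
    have a := abs_le.1 ((abs_im_le_norm _).trans hk.le)
    have b := abs_le.1 ((abs_im_le_norm _).trans h2)
    simp only [sub_im, pt] at a b
    refine ⟨φ k + 1 + 1, ?_⟩
    rw [Function.iterate_succ_apply']
    exact H.up _ (by linarith)
  · exfalso
    obtain ⟨w, hw1, hw2⟩ := mem_closure_iff.1 hz V hV hzV
    have h1 := h {w} (singleton_subset_iff.2 hw1) isCompact_singleton (‖pt‖ + 1)
    obtain ⟨k, hk1, hk2⟩ := (h1.and (hφt.eventually (Om_bound H hw2))).exists
    have h2 := hk1 w rfl
    have h3 : ‖f^[φ k + 1] w‖ ≤ ‖f^[φ k + 1] w - pt‖ + ‖pt‖ := by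
      simpa using norm_add_le (f^[φ k + 1] w - pt) pt
    linarith

theorem comp_eq (H : Hyp f) :
    connectedComponentIn (fatouSet f) pt = connectedComponentIn (FS f) pt := by
  have hp : pt ∈ fatouSet f := Om_subset H pt_mem_Om
  apply Subset.antisymm
  · refine isPreconnected_connectedComponentIn.subset_connectedComponentIn
      (mem_connectedComponentIn hp) (Subset.trans ?_ H.Om_subset)
    refine isPreconnected_connectedComponentIn.subset_of_closure_inter_subset H.isOpen_Om
      ⟨pt, mem_connectedComponentIn hp, pt_mem_Om⟩ ?_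
    rintro z ⟨hz, hzU⟩
    exact mem_Om_of_closure H hz (connectedComponentIn_subset _ _ hzU)
  · exact isPreconnected_connectedComponentIn.subset_connectedComponentIn
      (mem_connectedComponentIn H.pt_mem) (H.U_subset.trans (Om_subset H))

theorem comp_subset_O (H : Hyp f) :
    connectedComponentIn (closure (connectedComponentIn (FS f) pt))ᶜ (ctr 0) ⊆ O f := by
  refine isPreconnected_connectedComponentIn.subset_of_closure_inter_subset H.isOpen_O
    ⟨ctr 0, mem_connectedComponentIn H.ctr_not_mem, ctr_mem_O⟩ ?_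
  rintro z ⟨hz, hzW⟩
  by_contra h
  exact connectedComponentIn_subset _ _ hzW (H.frontier_O hz h)

/-- a complementary component of the closure of a component `U` of an open set `F` that lies in
`F` is itself a component of `F` -/
theorem comp_compl_eq {F : Set ℂ} (hF : IsOpen F) {a b : ℂ}
    (hb : b ∉ closure (connectedComponentIn F a))
    (hs : connectedComponentIn (closure (connectedComponentIn F a))ᶜ b ⊆ F) :
    connectedComponentIn (closure (connectedComponentIn F a))ᶜ b = connectedComponentIn F b := by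
  have hb' := mem_connectedComponentIn (F := (closure (connectedComponentIn F a))ᶜ) hb
  apply Subset.antisymm
  · exact isPreconnected_connectedComponentIn.subset_connectedComponentIn hb' hs
  · refine isPreconnected_connectedComponentIn.subset_connectedComponentIn
      (mem_connectedComponentIn (hs hb')) fun z hz hzc => ?_
    obtain ⟨w, hw1, hw2⟩ := mem_closure_iff.1 hzc _ hF.connectedComponentIn hz
    apply hb
    apply subset_closure
    rw [connectedComponentIn_eq hw2, ← connectedComponentIn_eq hw1]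
    exact mem_connectedComponentIn (hs hb')

theorem main : ∃ f : ℂ → ℂ, Differentiable ℂ f ∧
    (¬ ∃ p : Polynomial ℂ, ∀ z, f z = p.eval z) ∧
    ∃ U V : Set ℂ, IsComponent (fatouSet f) U ∧ MapsTo f U U ∧
      IsComponent (closure U)ᶜ V ∧ Disjoint V (juliaSet f) ∧
      (∃ p ∈ U, f p = p ∧ ‖deriv f p‖ < 1) ∧
      IsComponent (fatouSet f) V ∧ Bornology.IsBounded V ∧
      ∀ n m : ℕ, n ≠ m → Disjoint (f^[n] '' V) (f^[m] '' V) := by
  obtain ⟨f, H⟩ := exists_hyp
  have hO := comp_subset_O H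
  have hF := hO.trans (O_subset H)
  refine ⟨f, H.diff, H.not_poly, connectedComponentIn (FS f) pt,
    connectedComponentIn (closure (connectedComponentIn (FS f) pt))ᶜ (ctr 0),
    ⟨pt, Om_subset H pt_mem_Om, (comp_eq H).symm⟩, mapsTo_iff_image_subset.2 H.invariant,
    ⟨ctr 0, H.ctr_not_mem, rfl⟩, disjoint_compl_right_iff_subset.2 hF, ?_, ?_, ?_, ?_⟩
  · obtain ⟨p, hp, hfix⟩ := exists_fixed H
    refine ⟨p, H.upper_subset ?_, hfix, (deriv_le H hp).trans_lt (by norm_num)⟩
    rw [mem_closedBall, dist_eq_norm] at hp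
    have b := abs_le.1 ((abs_im_le_norm _).trans hp)
    simp only [sub_im, pt] at b
    linarith
  · refine ⟨ctr 0, O_subset H ctr_mem_O, ?_⟩
    have h1 := H.ctr_not_mem
    rw [← comp_eq H] at h1 hF ⊢
    exact comp_compl_eq isOpen_fatouSet h1 hF
  · refine (isBounded_closedBall (x := ctr 0) (r := 4)).subset fun z hz => ?_
    have h1 := norm_le_N (z - ctr 0)
    have h2 := H.O_bound (hO hz) 0
    have h3 := u_le 0
    rw [mem_closedBall, dist_eq_norm]
    simp only [Function.iterate_zero, id_eq] at h2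
    linarith
  · intro n m hnm
    rw [Set.disjoint_left]
    rintro _ ⟨z, hz, rfl⟩ ⟨w, hw, hwz⟩
    have h1 := abs_le.1 (re_bound H (hO hz) n)
    have h2 := abs_le.1 (re_bound H (hO hw) m)
    rw [hwz] at h2
    rcases lt_or_gt_of_ne hnm with h | h
    · have : (n : ℝ) + 1 ≤ m := by exact_mod_cast h
      linarith
    · have : (m : ℝ) + 1 ≤ n := by exact_mod_cast h
      linarith

end Pool.Agent.MP_aa8c71_an.H58
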